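import Mathlib
import Pool.Agent.Helper9.NS
import Pool.Agent.Helper70.KX.Ind
import Pool.Agent.Helper5.KP.Rat
import Pool.Agent.Helper70.KX.Line
import Pool.Agent.Helper15.KP.Defs2

/-!
# KX: the double planes branched along a cubic and a line
-/

set_option linter.unusedSectionVars false

namespace Pool.Agent.Helper70.KX

open VC _root_.VF Function Polynomial
open Pool.Agent.Helper21.TO Pool.Agent.Helper15.GT Pool.Agent.Helper15.KP

universe u

variable {k : Type u} [Field k] [IsAlgClosed k] [CharZero k]

lemma adjoin_pair_isAlgebraic {F : Type u} [Field F] [Algebra k F] {s x : F}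
    (h : IntermediateField.adjoin k {s, x} = ⊤) : Algebra.IsAlgebraic (IntermediateField.adjoin k {s, x}) F := by
  refine ⟨fun z => ?_⟩
  have hz : z ∈ IntermediateField.adjoin k {s, x} := by
    rw [h]
    exact IntermediateField.mem_top
  exact isAlgebraic_algebraMap (⟨z, hz⟩ : IntermediateField.adjoin k {s, x})

lemma aeval_mem {F : Type u} [Field F] [Algebra k F] {K : IntermediateField k F} {s : F} (hs : s ∈ K) (p : k[X]) :
    aeval s p ∈ K := by
  have h : IntermediateField.adjoin k {s} ≤ K := by
    rw [IntermediateField.adjoin_simple_le_iff]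
    exact hs
  exact h ((IntermediateField.algebra_adjoin_le_adjoin k {s}) (aeval_mem_adjoin_singleton k s))

/-- The case of a conic bundle without a quadratic term. -/
theorem dbl_lin {F : Type u} [Field F] [Algebra k F] (s t z : F) (f2 f3 : k[X]) (hst : AlgebraicIndependent k ![s, t])
    (hz : z ^ 2 = aeval s f2 * t + aeval s f3) (hgen : IntermediateField.adjoin k {s, t, z} = ⊤) (hf2 : f2 ≠ 0)
    {u : RPl k F → k} (hu : HF k F u) (w w' : RPl k F) : u w = u w' := by
  have hs : Transcendental k s := ind_fst hst
  have h0 : aeval s f2 ≠ 0 := fun h => hs ⟨f2, hf2, h⟩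
  have htop : IntermediateField.adjoin k {s, z} = ⊤ := by
    rw [eq_top_iff, ← hgen, IntermediateField.adjoin_le_iff]
    have h1 : s ∈ IntermediateField.adjoin k {s, z} := IntermediateField.subset_adjoin k _ (Or.inl rfl)
    have h2 : z ∈ IntermediateField.adjoin k {s, z} := IntermediateField.subset_adjoin k _ (Or.inr rfl)
    rintro y (hy | hy | hy)
    · rw [hy]
      exact h1
    · have h3 : t = (z ^ 2 - aeval s f3) / aeval s f2 := by
        rw [hz]
        field_simp
        ring
      rw [hy, h3]
      exact div_mem (sub_mem (pow_mem h2 2) (aeval_mem h1 f3)) (aeval_mem h1 f2)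
    · rw [Set.mem_singleton_iff.mp hy]
      exact h2
  exact HF.const_of_rat s z (ind_of_gen hst (adjoin_pair_isAlgebraic htop)) htop hu w w'

/-- The case of a cylinder. -/
theorem dbl_cyl {F : Type u} [Field F] [Algebra k F] (s t z : F) (f3 : k[X]) (hst : AlgebraicIndependent k ![s, t])
    (hz : z ^ 2 = aeval s f3) (hgen : IntermediateField.adjoin k {s, t, z} = ⊤) (hq : Reg k F)
    {u : RPl k F → k} (hu : HF k F u) (w w' : RPl k F) : u w = u w' := by
  have hs : Transcendental k s := ind_fst hst
  let K₀ := IntermediateField.adjoin k {s}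
  have hK₀ : IsFunctionField k K₀ := line_ff (trans_gen hs) (adjoin_gen_top s)
  have hs0 : s ∈ K₀ := IntermediateField.mem_adjoin_simple_self k s
  have hint : IsIntegral K₀ z := by
    refine IsIntegral.of_pow (n := 2) two_pos ?_
    rw [hz]
    exact isIntegral_algebraMap (x := (⟨aeval s f3, aeval_mem hs0 f3⟩ : K₀))
  let K := IntermediateField.adjoin K₀ {z}
  haveI : IsScalarTower k K F := IsScalarTower.of_algebraMap_eq fun c => rfl
  haveI : FiniteDimensional K₀ K := IntermediateField.adjoin.finiteDimensional hint
  have hK : IsFunctionField k K := _root_.VF.ff_ext hK₀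
  haveI : Algebra.IsAlgebraic K₀ K := Algebra.IsAlgebraic.of_finite K₀ K
  have ht : Transcendental K t := fun h => ind_snd hst (h.restrictScalars K₀)
  have htop : IntermediateField.adjoin K {t} = ⊤ := by
    rw [eq_top_iff]
    intro y _
    have hle : IntermediateField.adjoin k {s, t, z} ≤ (IntermediateField.adjoin K {t}).restrictScalars k := by
      rw [IntermediateField.adjoin_le_iff]
      rintro y (hy | hy | hy)
      · rw [hy]
        exact (IntermediateField.adjoin K {t}).algebraMap_mem (algebraMap K₀ K ⟨s, hs0⟩)
      · rw [hy]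
        exact IntermediateField.mem_adjoin_simple_self K t
      · rw [Set.mem_singleton_iff.mp hy]
        exact (IntermediateField.adjoin K {t}).algebraMap_mem ⟨z, IntermediateField.mem_adjoin_simple_self K₀ z⟩
    exact hle (by rw [hgen]; exact IntermediateField.mem_top)
  obtain ⟨l, hl, hul⟩ := HF.ruled hK (IsScalarTower.toAlgHom k K F) t
    (fun p hp => by
      by_contra hp0
      exact ht ⟨p, hp0, hp⟩) (fun y => by
      have hy : y ∈ IntermediateField.adjoin K {t} := by
        rw [htop]
        exact IntermediateField.mem_top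
      obtain ⟨r, q, hrq⟩ := (IntermediateField.mem_adjoin_simple_iff K y).mp hy
      by_cases hq0 : aeval t q = 0
      · refine ⟨0, 1, ?_, ?_⟩
        · rw [eval₂_one]
          exact one_ne_zero
        · rw [hrq, hq0, div_zero, zero_mul, eval₂_zero]
      · refine ⟨r, q, hq0, ?_⟩
        rw [hrq]
        exact div_mul_cancel₀ _ hq0) hu
  rw [hul, hul]
  exact harm_rat hK (hq K hK (IsScalarTower.toAlgHom k K F)) hl _ _

/-- The case of a conic bundle which becomes trivial over a rational covering of the base. -/
theorem dbl_conic {F : Type u} [Field F] [Algebra k F] (s t z : F) (A1 A0 : k) (f2 f3 : k[X])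
    (hA : A1 ≠ 0 ∨ A0 ≠ 0) (hst : AlgebraicIndependent k ![s, t])
    (hz : z ^ 2 = (algebraMap k F A1 * s + algebraMap k F A0) * t ^ 2 + aeval s f2 * t + aeval s f3)
    (hgen : IntermediateField.adjoin k {s, t, z} = ⊤) {u : RPl k F → k} (hu : HF k F u) (w w' : RPl k F) :
    u w = u w' := by
  have hs : Transcendental k s := ind_fst hst
  have hcF : CharZero F := charZero_of_injective_algebraMap (algebraMap k F).injective
  obtain ⟨σ₀, hσ₀⟩ : ∃ σ₀ : AlgebraicClosure F, σ₀ ^ 2 =
      algebraMap F (AlgebraicClosure F) (algebraMap k F A1 * s + algebraMap k F A0) :=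
    IsAlgClosed.exists_pow_nat_eq _ two_pos
  let F' := IntermediateField.adjoin F {σ₀}
  have hint : IsIntegral F σ₀ := by
    refine IsIntegral.of_pow (n := 2) two_pos ?_
    rw [hσ₀]
    exact isIntegral_algebraMap
  haveI : FiniteDimensional F F' := IntermediateField.adjoin.finiteDimensional hint
  haveI : Algebra.IsAlgebraic F F' := Algebra.IsAlgebraic.of_finite F F'
  haveI : IsScalarTower k F F' := inferInstance
  have hcF' : CharZero F' := charZero_of_injective_algebraMap (algebraMap k F').injective
  obtain ⟨e, he⟩ : ∃ e : F →ₐ[k] F', ∀ y, e y = algebraMap F F' y := ⟨IsScalarTower.toAlgHom k F F', fun y => rfl⟩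
  obtain ⟨σ, hσ⟩ : ∃ σ : F', σ = ⟨σ₀, IntermediateField.mem_adjoin_simple_self F σ₀⟩ := ⟨_, rfl⟩
  have hσ2 : σ ^ 2 = algebraMap k F' A1 * e s + algebraMap k F' A0 := by
    have h1 : σ ^ 2 = e (algebraMap k F A1 * s + algebraMap k F A0) := by
      apply (algebraMap F' (AlgebraicClosure F)).injective
      rw [hσ, he]
      exact hσ₀
    rw [h1, map_add, map_mul, e.commutes, e.commutes]
  have hf1 : algebraMap k F A1 * s + algebraMap k F A0 ≠ 0 := by
    intro h
    have h1 : aeval s (C A1 * X + C A0) = 0 := by
      rw [map_add, map_mul, aeval_C, aeval_X, aeval_C]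
      exact h
    have h2 : (C A1 * X + C A0 : k[X]) ≠ 0 := by
      intro h3
      rcases hA with h4 | h4
      · apply h4
        have h5 := congrArg (fun p => coeff p 1) h3
        simpa using h5
      · apply h4
        have h5 := congrArg (fun p => coeff p 0) h3
        simpa using h5
    exact hs ⟨_, h2, h1⟩
  have hσ0 : σ ≠ 0 := by
    intro h0
    apply hf1
    apply (algebraMap F F').injective
    rw [h0, zero_pow two_ne_zero] at hσ2
    rw [← he, map_add, map_mul, e.commutes, e.commutes, ← hσ2, map_zero]
  have hst' : AlgebraicIndependent k ![e s, e t] := by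
    have h1 := hst.map' (f := e) e.toRingHom.injective
    have h2 : (e ∘ ![s, t]) = ![e s, e t] := by
      funext i
      fin_cases i <;> rfl
    rw [h2] at h1
    exact h1
  -- the conic
  have hz' : e z ^ 2 = σ ^ 2 * e t ^ 2 + aeval (e s) f2 * e t + aeval (e s) f3 := by
    have h1 : ∀ p : k[X], aeval (e s) p = e (aeval s p) := fun p => (aeval_algHom_apply e s p)
    rw [← map_pow, hz, hσ2, map_add, map_add, map_mul, map_mul, map_add, map_mul, e.commutes, e.commutes, h1, h1,
      map_pow]
  obtain ⟨x, hx⟩ : ∃ x, x = e z - σ * e t := ⟨_, rfl⟩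
  have hrel : e t * (2 * σ * x - aeval (e s) f2) = aeval (e s) f3 - x ^ 2 := by
    rw [hx]
    linear_combination hz'
  obtain ⟨ρ, hρs, hρσ⟩ : ∃ ρ : F', e s ∈ IntermediateField.adjoin k {ρ} ∧ σ ∈ IntermediateField.adjoin k {ρ} := by
    by_cases hA1 : A1 = 0
    · refine ⟨e s, IntermediateField.mem_adjoin_simple_self k _, ?_⟩
      rw [hA1, map_zero, zero_mul, zero_add] at hσ2
      have h1 : IsAlgebraic k σ := by
        refine (IsIntegral.of_pow (n := 2) two_pos ?_).isAlgebraic
        rw [hσ2]
        exact isIntegral_algebraMap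
      obtain ⟨c, hc⟩ := minpoly.mem_range_of_degree_eq_one k σ
        (IsAlgClosed.degree_eq_one_of_irreducible k (minpoly.irreducible h1.isIntegral))
      rw [← hc]
      exact (IntermediateField.adjoin k {e s}).algebraMap_mem c
    · refine ⟨σ, ?_, IntermediateField.mem_adjoin_simple_self k _⟩
      have hA1' : algebraMap k F' A1 ≠ 0 := (_root_.map_ne_zero _).mpr hA1
      have h1 : e s = (σ ^ 2 - algebraMap k F' A0) / algebraMap k F' A1 := by
        rw [hσ2]
        field_simp
        ring
      rw [h1]
      exact div_mem (sub_mem (pow_mem (IntermediateField.mem_adjoin_simple_self k _) 2)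
        ((IntermediateField.adjoin k {σ}).algebraMap_mem A0)) ((IntermediateField.adjoin k {σ}).algebraMap_mem A1)
  obtain ⟨y, hyt, hyx⟩ : ∃ y : F', e t ∈ IntermediateField.adjoin k {ρ, y} ∧ x ∈ IntermediateField.adjoin k {ρ, y} := by
    by_cases hd : 2 * σ * x - aeval (e s) f2 = 0
    · refine ⟨e t, IntermediateField.subset_adjoin k _ (Or.inr rfl), ?_⟩
      have hle : IntermediateField.adjoin k {ρ} ≤ IntermediateField.adjoin k {ρ, e t} := by
        rw [IntermediateField.adjoin_simple_le_iff]
        exact IntermediateField.subset_adjoin k _ (Or.inl rfl)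
      have h1 : x = aeval (e s) f2 / (2 * σ) := by
        field_simp
        linear_combination hd
      rw [h1]
      refine div_mem (aeval_mem (hle hρs) f2) (mul_mem ?_ (hle hρσ))
      exact_mod_cast (IntermediateField.adjoin k {ρ, e t}).natCast_mem 2
    · refine ⟨x, ?_, IntermediateField.subset_adjoin k _ (Or.inr rfl)⟩
      have hle : IntermediateField.adjoin k {ρ} ≤ IntermediateField.adjoin k {ρ, x} := by
        rw [IntermediateField.adjoin_simple_le_iff]
        exact IntermediateField.subset_adjoin k _ (Or.inl rfl)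
      have hxm : x ∈ IntermediateField.adjoin k {ρ, x} := IntermediateField.subset_adjoin k _ (Or.inr rfl)
      have h1 : e t = (aeval (e s) f3 - x ^ 2) / (2 * σ * x - aeval (e s) f2) := by
        rw [← hrel]
        field_simp
      rw [h1]
      refine div_mem (sub_mem (aeval_mem (hle hρs) f3) (pow_mem hxm 2))
        (sub_mem (mul_mem (mul_mem ?_ (hle hρσ)) hxm) (aeval_mem (hle hρs) f2))
      exact_mod_cast (IntermediateField.adjoin k {ρ, x}).natCast_mem 2
  have hle : IntermediateField.adjoin k {ρ} ≤ IntermediateField.adjoin k {ρ, y} := by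
    rw [IntermediateField.adjoin_simple_le_iff]
    exact IntermediateField.subset_adjoin k _ (Or.inl rfl)
  have htop : IntermediateField.adjoin k {ρ, y} = ⊤ := by
    have hF : ∀ a : F, e a ∈ IntermediateField.adjoin k {ρ, y} := by
      intro a
      have ha : a ∈ IntermediateField.adjoin k {s, t, z} := by
        rw [hgen]
        exact IntermediateField.mem_top
      have hle' : IntermediateField.adjoin k {s, t, z} ≤ (IntermediateField.adjoin k {ρ, y}).comap e := by
        rw [IntermediateField.adjoin_le_iff]
        rintro b (hb | hb | hb)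
        · rw [hb]
          exact hle hρs
        · rw [hb]
          exact hyt
        · rw [Set.mem_singleton_iff.mp hb]
          change e z ∈ IntermediateField.adjoin k {ρ, y}
          have h1 : e z = x + σ * e t := by
            rw [hx]
            ring
          rw [h1]
          exact add_mem hyx (mul_mem (hle hρσ) hyt)
      exact hle' ha
    rw [eq_top_iff]
    rintro ⟨a, ha⟩ -
    induction ha using IntermediateField.adjoin_induction with
    | mem b hb =>
      have hb' : b = σ₀ := hb
      subst hb'
      rw [hσ] at hρσ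
      exact hle hρσ
    | algebraMap c =>
      have h1 := hF c
      rw [he] at h1
      exact h1
    | add a b _ _ ha hb => exact add_mem ha hb
    | mul a b _ _ ha hb => exact mul_mem ha hb
    | inv a _ ha => exact inv_mem ha
  have hind := ind_of_gen hst' (adjoin_pair_isAlgebraic htop)
  have hlift : ∀ v : RPl k F, ∃ v' : RPl k F', v'.comap e = v := fun v => exists_lift e v
  obtain ⟨v, rfl⟩ := hlift w
  obtain ⟨v', rfl⟩ := hlift w'
  exact HF.const_of_rat ρ y hind htop (hu.comap e) v v'

/-- A cubic without the third power of the second variable. -/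
theorem dbl_nt {F : Type u} [Field F] [Algebra k F] (s t z : F) (A1 A0 : k) (f2 f3 : k[X])
    (hst : AlgebraicIndependent k ![s, t])
    (hz : z ^ 2 = (algebraMap k F A1 * s + algebraMap k F A0) * t ^ 2 + aeval s f2 * t + aeval s f3)
    (hgen : IntermediateField.adjoin k {s, t, z} = ⊤) (hq : Reg k F) {u : RPl k F → k} (hu : HF k F u)
    (w w' : RPl k F) : u w = u w' := by
  by_cases hA : A1 ≠ 0 ∨ A0 ≠ 0
  · exact dbl_conic s t z A1 A0 f2 f3 hA hst hz hgen hu w w'
  · push Not at hA
    rw [hA.1, hA.2, map_zero, zero_mul, zero_add, zero_mul, zero_add] at hz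
    by_cases hf2 : f2 = 0
    · rw [hf2, map_zero, zero_mul, zero_add] at hz
      exact dbl_cyl s t z f3 hst hz hgen hq hu w w'
    · exact dbl_lin s t z f2 f3 hst hz hgen hf2 hu w w'

/-- DBL: on the double plane branched along the cubic `c` and the line at infinity all harmonic functions are
constant, if it is regular. -/
theorem dbl {F : Type u} [Field F] [Algebra k F] (s t z : F) (c : Fin 10 → k)
    (hst : AlgebraicIndependent k ![s, t]) (hz : z ^ 2 = cub (fun i => algebraMap k F (c i)) s t)
    (hgen : IntermediateField.adjoin k {s, t, z} = ⊤) (hq : Reg k F) {u : RPl k F → k} (hu : HF k F u)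
    (w w' : RPl k F) : u w = u w' := by
  by_cases h6 : c 6 = 0
  · refine dbl_nt s t z (c 3) (c 7) (C (c 1) * X ^ 2 + C (c 4) * X + C (c 8))
      (C (c 0) * X ^ 3 + C (c 2) * X ^ 2 + C (c 5) * X + C (c 9)) hst ?_ hgen hq hu w w'
    rw [hz]
    unfold cub
    simp only [map_add, map_mul, map_pow, aeval_C, aeval_X, h6, map_zero]
    ring
  · -- a point of the cubic at infinity
    obtain ⟨r, hr⟩ : ∃ r : k, c 6 * r ^ 3 + c 3 * r ^ 2 + c 1 * r + c 0 = 0 := by
      have hd : (C (c 6) * X ^ 3 + C (c 3) * X ^ 2 + C (c 1) * X + C (c 0) : k[X]).degree = 3 :=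
        degree_cubic h6
      obtain ⟨r, hr⟩ := IsAlgClosed.exists_root (C (c 6) * X ^ 3 + C (c 3) * X ^ 2 + C (c 1) * X + C (c 0) : k[X])
        (by rw [hd]; norm_num)
      refine ⟨r, ?_⟩
      have h1 : (C (c 6) * X ^ 3 + C (c 3) * X ^ 2 + C (c 1) * X + C (c 0) : k[X]).eval r = 0 := hr
      simpa using h1
    have hr' := congrArg (algebraMap k F) hr
    simp only [map_add, map_mul, map_pow, map_zero] at hr'
    obtain ⟨S, hS⟩ : ∃ S, S = t - algebraMap k F r * s := ⟨_, rfl⟩
    have ht : t = algebraMap k F r * s + S := by rw [hS]; ring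
    have hSK : S ∈ IntermediateField.adjoin k {S, s} := IntermediateField.subset_adjoin k _ (Or.inl rfl)
    have hsK : s ∈ IntermediateField.adjoin k {S, s} := IntermediateField.subset_adjoin k _ (Or.inr rfl)
    have htK : t ∈ IntermediateField.adjoin k {S, s} := by
      rw [ht]
      exact add_mem (mul_mem ((IntermediateField.adjoin k {S, s}).algebraMap_mem r) hsK) hSK
    have hind : AlgebraicIndependent k ![S, s] := by
      refine ind_of_gen hst ⟨fun a => ?_⟩
      have hle : IntermediateField.adjoin k {s, t, z} ≤
          (algebraicClosure (IntermediateField.adjoin k {S, s}) F).restrictScalars k := by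
        rw [IntermediateField.adjoin_le_iff]
        have h1 : ∀ b ∈ IntermediateField.adjoin k {S, s}, IsAlgebraic (IntermediateField.adjoin k {S, s}) b :=
          fun b hb => isAlgebraic_algebraMap (⟨b, hb⟩ : IntermediateField.adjoin k {S, s})
        rintro b (hb | hb | hb)
        · rw [hb]
          exact mem_algebraicClosure_iff.mpr (h1 s hsK)
        · rw [hb]
          exact mem_algebraicClosure_iff.mpr (h1 t htK)
        · rw [Set.mem_singleton_iff.mp hb]
          refine mem_algebraicClosure_iff.mpr ?_
          refine (IsIntegral.of_pow (n := 2) two_pos ?_).isAlgebraic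
          have h2 : z ^ 2 ∈ IntermediateField.adjoin k {S, s} := by
            rw [hz]
            have h3 : ∀ i, algebraMap k F (c i) ∈ IntermediateField.adjoin k {S, s} := fun i =>
              (IntermediateField.adjoin k {S, s}).algebraMap_mem _
            unfold cub
            refine add_mem (add_mem (add_mem (add_mem (add_mem (add_mem (add_mem (add_mem (add_mem ?_ ?_) ?_) ?_) ?_) ?_) ?_) ?_) ?_) (h3 9)
            · exact mul_mem (h3 0) (pow_mem hsK 3)
            · exact mul_mem (mul_mem (h3 1) (pow_mem hsK 2)) htK
            · exact mul_mem (h3 2) (pow_mem hsK 2)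
            · exact mul_mem (mul_mem (h3 3) hsK) (pow_mem htK 2)
            · exact mul_mem (mul_mem (h3 4) hsK) htK
            · exact mul_mem (h3 5) hsK
            · exact mul_mem (h3 6) (pow_mem htK 3)
            · exact mul_mem (h3 7) (pow_mem htK 2)
            · exact mul_mem (h3 8) htK
          exact isIntegral_algebraMap (x := (⟨z ^ 2, h2⟩ : IntermediateField.adjoin k {S, s}))
      have ha : a ∈ IntermediateField.adjoin k {s, t, z} := by
        rw [hgen]
        exact IntermediateField.mem_top
      exact mem_algebraicClosure_iff.mp (hle ha)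
    have hgen' : IntermediateField.adjoin k {S, s, z} = ⊤ := by
      rw [eq_top_iff, ← hgen, IntermediateField.adjoin_le_iff]
      have hle : IntermediateField.adjoin k {S, s} ≤ IntermediateField.adjoin k {S, s, z} := by
        rw [IntermediateField.adjoin_le_iff]
        rintro b (hb | hb)
        · exact IntermediateField.subset_adjoin k _ (Or.inl hb)
        · exact IntermediateField.subset_adjoin k _ (Or.inr (Or.inl hb))
      rintro b (hb | hb | hb)
      · rw [hb]
        exact hle hsK
      · rw [hb]
        exact hle htK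
      · exact IntermediateField.subset_adjoin k _ (Or.inr (Or.inr hb))
    refine dbl_nt S s z (c 1 + 2 * c 3 * r + 3 * c 6 * r ^ 2) (c 2 + c 4 * r + c 7 * r ^ 2)
      (C (c 3 + 3 * c 6 * r) * X ^ 2 + C (c 4 + 2 * c 7 * r) * X + C (c 5 + c 8 * r))
      (C (c 6) * X ^ 3 + C (c 7) * X ^ 2 + C (c 8) * X + C (c 9)) hind ?_ hgen' hq hu w w'
    rw [hz, ht]
    unfold cub
    simp only [map_add, map_mul, map_pow, aeval_C, aeval_X, map_ofNat]
    linear_combination s ^ 3 * hr'

end Pool.Agent.Helper70.KX
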