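import Mathlib
import Pool.Agent.Helper9.NS
import Pool.Agent.Helper21.TO.Num

/-!
# KX: the function field of a Weierstrass equation is a regular extension
-/

set_option linter.unusedSectionVars false

namespace Pool.Agent.Helper70.KX

open Polynomial

universe u

/-- `K` is algebraically closed in the field generated by the generic point of a Weierstrass equation over `K`. -/
theorem wei_const {K F : Type u} [Field K] [Field F] [Algebra K F] (a b : K) (x y : F)
    (hx : Transcendental K x)
    (he : y ^ 2 = x ^ 3 + algebraMap K F a * x + algebraMap K F b)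
    (hgen : IntermediateField.adjoin K {x, y} = ⊤) {z : F} (hz : IsAlgebraic K z) :
    z ∈ Set.range (algebraMap K F) := by
  obtain ⟨r, p, q, hr, h⟩ := Helper21.TO.exists_num_one a b x y he (z := z)
    (by rw [hgen]; exact IntermediateField.mem_top)
  let L := IntermediateField.adjoin K {z}
  haveI : FiniteDimensional K L := IntermediateField.adjoin.finiteDimensional hz.isIntegral
  haveI : Algebra.IsAlgebraic K L := Algebra.IsAlgebraic.of_finite K L
  have hxL : Transcendental L x := fun h => hx (h.restrictScalars K)
  let z' : L := ⟨z, IntermediateField.mem_adjoin_simple_self K z⟩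
  have hz' : algebraMap L F z' = z := rfl
  have hinj : Function.Injective (aeval x : L[X] →ₐ[L] F) := transcendental_iff_injective.mp hxL
  have hmap : ∀ g : K[X], aeval x (g.map (algebraMap K L)) = aeval x g := fun g => aeval_map_algebraMap L x g
  have e1 : (r.map (algebraMap K L) * C z' - p.map (algebraMap K L)) ^ 2 =
      q.map (algebraMap K L) ^ 2 * (X ^ 3 + C (algebraMap K L a) * X + C (algebraMap K L b)) := by
    apply hinj
    simp only [map_pow, map_sub, map_mul, map_add, hmap, aeval_C, aeval_X, hz']
    rw [h, add_sub_cancel_left, mul_pow, he]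
    rfl
  have hq : q = 0 := by
    by_contra hq
    have hq' : q.map (algebraMap K L) ≠ 0 := (Polynomial.map_ne_zero_iff (algebraMap K L).injective).mpr hq
    have hd : (X ^ 3 + C (algebraMap K L a) * X + C (algebraMap K L b) : L[X]).natDegree = 3 := by
      compute_degree!
    have hf0 : (X ^ 3 + C (algebraMap K L a) * X + C (algebraMap K L b) : L[X]) ≠ 0 := by
      intro h0
      rw [h0, natDegree_zero] at hd
      omega
    have h2 := congrArg natDegree e1
    rw [natDegree_pow, natDegree_mul (pow_ne_zero 2 hq') hf0, natDegree_pow, hd] at h2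
    omega
  rw [hq, Polynomial.map_zero, zero_pow two_ne_zero, zero_mul, sq_eq_zero_iff, sub_eq_zero] at e1
  have hr0 : r ≠ 0 := by
    rintro rfl
    exact hr (map_zero _)
  have h3 := congrArg (fun g => coeff g r.natDegree) e1
  simp only [coeff_mul_C, coeff_map] at h3
  have hlc : r.coeff r.natDegree ≠ 0 := leadingCoeff_ne_zero.mpr hr0
  refine ⟨p.coeff r.natDegree / r.coeff r.natDegree, ?_⟩
  have h4 := congrArg (algebraMap L F) h3
  rw [map_mul, hz', ← IsScalarTower.algebraMap_apply, ← IsScalarTower.algebraMap_apply] at h4
  rw [map_div₀, div_eq_iff ((_root_.map_ne_zero _).mpr hlc), ← h4, mul_comm]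

end Pool.Agent.Helper70.KX
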