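import Mathlib
import Pool.Agent.Helper9.NS
import Pool.Agent.Helper70.KX.Alg
import Pool.Agent.Helper21.TB.Fib
import Pool.Agent.Helper15.GT.RDefs

/-!
# KX: the function field of a Weierstrass equation as a genus one fibration
-/

set_option linter.unusedSectionVars false

namespace Pool.Agent.Helper70.KX

open VC _root_.VF Function Polynomial
open Pool.Agent.Helper21.TB

universe u

/-- Roots of the cubic and square roots of their differences. -/
theorem exists_roots {K M : Type u} [Field K] [Field M] [Algebra K M] [IsAlgClosed M] (a b : K) :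
    ∃ r s : Fin 3 → M, (X ^ 3 + C (algebraMap K M a) * X + C (algebraMap K M b) : M[X]) =
      ∏ i, (X - C (r i)) ∧ (∀ i, s i ^ 2 = r (i + 1) - r (i + 2)) ∧ (∀ i, IsIntegral K (r i)) ∧
      ∀ i, IsIntegral K (s i) := by
  classical
  obtain ⟨r, hr⟩ : ∃ r : Fin 3 → M, (X ^ 3 + C (algebraMap K M a) * X + C (algebraMap K M b) : M[X]) =
      ∏ i, (X - C (r i)) := by
    have hd : (X ^ 3 + C (algebraMap K M a) * X + C (algebraMap K M b) : M[X]).natDegree = 3 := by
      compute_degree!
    have hm : (X ^ 3 + C (algebraMap K M a) * X + C (algebraMap K M b) : M[X]).Monic := by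
      monicity!
    have hs := IsAlgClosed.splits (X ^ 3 + C (algebraMap K M a) * X + C (algebraMap K M b) : M[X])
    have hcard := hs.natDegree_eq_card_roots
    rw [hd] at hcard
    have hprod := hs.eq_prod_roots_of_monic hm
    obtain ⟨l, hl⟩ := Quot.exists_rep (X ^ 3 + C (algebraMap K M a) * X + C (algebraMap K M b) : M[X]).roots
    have hl' : ((l : List M) : Multiset M) =
      (X ^ 3 + C (algebraMap K M a) * X + C (algebraMap K M b) : M[X]).roots := hl
    rw [← hl'] at hcard hprod
    rw [Multiset.coe_card] at hcard
    obtain ⟨r0, r1, r2, rfl⟩ := List.length_eq_three.mp hcard.symm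
    refine ⟨![r0, r1, r2], ?_⟩
    rw [hprod, Fin.prod_univ_three]
    simp [mul_assoc]
  have hsq : ∀ i, ∃ z : M, z ^ 2 = r (i + 1) - r (i + 2) := fun i =>
    IsAlgClosed.exists_pow_nat_eq _ two_pos
  choose s hs using hsq
  have hir : ∀ i, IsIntegral K (r i) := by
    intro i
    refine ⟨X ^ 3 + C a * X + C b, by monicity!, ?_⟩
    have h1 := congrArg (Polynomial.eval (r i)) hr
    rw [eval_prod, Finset.prod_eq_zero (Finset.mem_univ i) (by simp)] at h1
    rw [← h1]
    simp
  refine ⟨r, s, hr, hs, hir, fun i => ?_⟩
  refine IsIntegral.of_pow (n := 2) two_pos ?_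
  rw [hs]
  exact (hir _).sub (hir _)

/-- The function field of a Weierstrass equation over the function field `K` of a curve is the field of invariants of a
`Fibration` with trivial translations. -/
theorem exists_fibration {k K F : Type u} [Field k] [IsAlgClosed k] [CharZero k] [Field K] [Algebra k K] [Field F]
    [Algebra k F] [Algebra K F] [IsScalarTower k K F] (hK : IsFunctionField k K) (a b : K)
    (hab : 4 * a ^ 3 + 27 * b ^ 2 ≠ 0) (x y : F) (hx : Transcendental K x)
    (he : y ^ 2 = x ^ 3 + algebraMap K F a * x + algebraMap K F b)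
    (hgen : IntermediateField.adjoin K {x, y} = ⊤) :
    ∃ (L Ω : Type u) (_ : Field L) (_ : Algebra k L) (_ : Algebra K L) (_ : IsScalarTower k K L)
      (_ : Field Ω) (_ : Algebra k Ω) (_ : Algebra L Ω) (_ : IsScalarTower k L Ω) (T : Fibration k K L Ω)
      (f : F →ₐ[k] Ω), T.a = a ∧ T.b = b ∧ f.comp (IsScalarTower.toAlgHom k K F) = T.j ∧
        (∀ σ ∈ T.G, ∀ z, σ (f z) = f z) ∧ ∀ z, (∀ σ ∈ T.G, σ z = z) → z ∈ Set.range f := by
  classical
  have hcK : CharZero K := charZero_of_injective_algebraMap (algebraMap k K).injective
  have hcF : CharZero F := charZero_of_injective_algebraMap (algebraMap k F).injective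
  let M := AlgebraicClosure F
  haveI : IsScalarTower K F M := inferInstance
  obtain ⟨r, s, hr, hs, hir, his⟩ := exists_roots (K := K) (M := M) a b
  let S : Finset M := Finset.univ.image r ∪ Finset.univ.image s
  have hS : ∀ t ∈ S, IsIntegral K t := by
    intro t ht
    rcases Finset.mem_union.mp ht with h | h
    · obtain ⟨i, -, rfl⟩ := Finset.mem_image.mp h
      exact hir i
    · obtain ⟨i, -, rfl⟩ := Finset.mem_image.mp h
      exact his i
  let p : K[X] := ∏ t ∈ S, minpoly K t
  have hp0 : p ≠ 0 := Finset.prod_ne_zero_iff.mpr fun t ht => minpoly.ne_zero (hS t ht)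
  have hpS : ∀ t ∈ S, t ∈ p.rootSet M := by
    intro t ht
    rw [mem_rootSet]
    refine ⟨hp0, ?_⟩
    rw [map_prod]
    exact Finset.prod_eq_zero ht (minpoly.aeval K t)
  let L := IntermediateField.adjoin K (p.rootSet M)
  let Ω := IntermediateField.adjoin F (p.rootSet M)
  haveI hspL : IsSplittingField K L p := IntermediateField.adjoin_rootSet_isSplittingField (IsAlgClosed.splits _)
  have hroot : (p.map (algebraMap K F)).rootSet M = p.rootSet M := by
    ext z
    rw [mem_rootSet, mem_rootSet, Polynomial.map_ne_zero_iff (algebraMap K F).injective, aeval_map_algebraMap]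
  haveI hspΩ : IsSplittingField F Ω (p.map (algebraMap K F)) := by
    change IsSplittingField F (IntermediateField.adjoin F (p.rootSet M)) _
    rw [← hroot]
    exact IntermediateField.adjoin_rootSet_isSplittingField (IsAlgClosed.splits _)
  haveI : FiniteDimensional K L := IsSplittingField.finiteDimensional L p
  haveI : FiniteDimensional F Ω := IsSplittingField.finiteDimensional Ω (p.map (algebraMap K F))
  haveI hnL : Normal K L := Normal.of_isSplittingField p
  haveI hnΩ : Normal F Ω := Normal.of_isSplittingField (p.map (algebraMap K F))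
  haveI : IsGalois F Ω := ⟨⟩
  have hle : L ≤ Ω.restrictScalars K := by
    rw [IntermediateField.adjoin_le_iff]
    exact IntermediateField.subset_adjoin F (p.rootSet M)
  let ι : L →+* Ω :=
    { toFun := fun z => ⟨z, hle z.2⟩
      map_one' := rfl
      map_mul' := fun _ _ => rfl
      map_zero' := rfl
      map_add' := fun _ _ => rfl }
  letI : Algebra L Ω := ι.toAlgebra
  haveI : IsScalarTower k L Ω := IsScalarTower.of_algebraMap_eq fun c => rfl
  haveI : IsScalarTower k K L := inferInstance
  haveI : IsScalarTower K L Ω := IsScalarTower.of_algebraMap_eq fun c => rfl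
  haveI : Algebra.IsAlgebraic K L := Algebra.IsAlgebraic.of_finite K L
  have hL : IsFunctionField k L := _root_.VF.ff_ext hK
  have hSL : ∀ t ∈ S, t ∈ L := fun t ht => IntermediateField.subset_adjoin K _ (hpS t ht)
  have hrL : ∀ i, r i ∈ L := fun i => hSL _ (Finset.mem_union_left _ (Finset.mem_image_of_mem r (Finset.mem_univ i)))
  have hsL : ∀ i, s i ∈ L := fun i => hSL _ (Finset.mem_union_right _ (Finset.mem_image_of_mem s (Finset.mem_univ i)))
  have haL : algebraMap L M (algebraMap K L a) = algebraMap K M a := rfl
  have hxL : Transcendental L (algebraMap F Ω x) := by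
    intro h
    apply hx
    have h1 : IsAlgebraic K (algebraMap F Ω x) := h.restrictScalars K
    exact (isAlgebraic_algebraMap_iff (algebraMap F Ω).injective).mp h1
  let T : Fibration k K L Ω :=
    { hF := hK
      hL := hL
      a := a
      b := b
      disc := hab
      x := algebraMap F Ω x
      y := algebraMap F Ω y
      hx := hxL
      eqn := by
        rw [← map_pow, he, map_add, map_add, map_mul, map_pow]
        rfl
      gen := by
        rw [eq_top_iff]
        rintro ⟨z, hz⟩ -
        induction hz using IntermediateField.adjoin_induction with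
        | mem t ht =>
          exact (IntermediateField.adjoin L {algebraMap F Ω x, algebraMap F Ω y}).algebraMap_mem
            ⟨t, IntermediateField.subset_adjoin K _ ht⟩
        | algebraMap c =>
          have hc : c ∈ IntermediateField.adjoin K {x, y} := by
            rw [hgen]
            exact IntermediateField.mem_top
          change algebraMap F Ω c ∈ _
          induction hc using IntermediateField.adjoin_induction with
          | mem t ht =>
            rcases ht with rfl | ht
            · exact IntermediateField.subset_adjoin L _ (Or.inl rfl)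
            · rw [Set.mem_singleton_iff.mp ht]
              exact IntermediateField.subset_adjoin L _ (Or.inr rfl)
          | algebraMap c =>
            exact (IntermediateField.adjoin L {algebraMap F Ω x, algebraMap F Ω y}).algebraMap_mem
              (algebraMap K L c)
          | add u v _ _ hu hv =>
            rw [map_add]
            exact add_mem hu hv
          | mul u v _ _ hu hv =>
            rw [map_mul]
            exact mul_mem hu hv
          | inv u _ hu =>
            rw [map_inv₀]
            exact inv_mem hu
        | add u v _ _ hu hv => exact add_mem hu hv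
        | mul u v _ _ hu hv => exact mul_mem hu hv
        | inv u _ hu => exact inv_mem hu
      G := ((AlgEquiv.restrictScalarsHom k : (Ω ≃ₐ[F] Ω) →* (Ω ≃ₐ[k] Ω))).range
      finG := by
        haveI : Finite (Ω ≃ₐ[F] Ω) := inferInstance
        exact Finite.of_surjective _
          (MonoidHom.rangeRestrict_surjective (AlgEquiv.restrictScalarsHom k : (Ω ≃ₐ[F] Ω) →* (Ω ≃ₐ[k] Ω)))
      stable := by
        rintro σ ⟨τ, rfl⟩ z
        refine ⟨((τ.restrictScalars K : Ω ≃ₐ[K] Ω) : Ω →ₐ[K] Ω).restrictNormal L z, ?_⟩
        exact AlgHom.restrictNormal_commutes _ L z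
      fixF := by
        rintro σ ⟨τ, rfl⟩ f
        exact τ.commutes (algebraMap K F f)
      fixed := by
        intro z hz
        have h1 : algebraMap L Ω z ∈ Set.range (algebraMap F Ω) := by
          rw [IsGalois.mem_range_algebraMap_iff_fixed]
          intro τ
          exact hz (AlgEquiv.restrictScalarsHom k τ) ⟨τ, rfl⟩
        obtain ⟨z', hz'⟩ := h1
        have h2 : IsAlgebraic K z' := by
          have h3 : IsAlgebraic K (algebraMap L Ω z) := (Algebra.IsAlgebraic.isAlgebraic z).algebraMap
          rw [← hz'] at h3
          exact (isAlgebraic_algebraMap_iff (algebraMap F Ω).injective).mp h3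
        obtain ⟨c, hc⟩ := wei_const a b x y hx he hgen h2
        refine ⟨c, (algebraMap L Ω).injective ?_⟩
        rw [← hz', ← hc]
        rfl
      translation := by
        rintro σ ⟨τ, rfl⟩
        exact Or.inl ⟨τ.commutes x, τ.commutes y⟩
      r := fun i => ⟨r i, hrL i⟩
      hr := by
        apply Polynomial.map_injective (algebraMap L M) (algebraMap L M).injective
        rw [Polynomial.map_prod]
        simp only [Polynomial.map_add, Polynomial.map_mul, Polynomial.map_pow, Polynomial.map_X,
          Polynomial.map_C, Polynomial.map_sub]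
        exact hr
      s := fun i => ⟨s i, hsL i⟩
      hs := fun i => Subtype.ext (hs i) }
  refine ⟨L, Ω, inferInstance, inferInstance, inferInstance, inferInstance, inferInstance, inferInstance,
    inferInstance, inferInstance, T, IsScalarTower.toAlgHom k F Ω, rfl, rfl, ?_, ?_, ?_⟩
  · ext c
    rfl
  · rintro σ ⟨τ, rfl⟩ z
    exact τ.commutes z
  · intro z hz
    change z ∈ Set.range (algebraMap F Ω)
    rw [IsGalois.mem_range_algebraMap_iff_fixed]
    intro τ
    exact hz (AlgEquiv.restrictScalarsHom k τ) ⟨τ, rfl⟩

end Pool.Agent.Helper70.KX
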