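import Mathlib
import Pool.Agent.Helper9.NS
import Pool.Agent.Helper70.KX.Fib
import Pool.Agent.Helper70.KX.Line
import Pool.Agent.Helper70.KX.Ind
import Pool.Agent.Helper15.GT.KBase
import Pool.Agent.Helper15.KP.Defs

/-!
# KX: elliptic surfaces over the projective line
-/

set_option linter.unusedSectionVars false

namespace Pool.Agent.Helper70.KX

open VC _root_.VF Function Polynomial
open Pool.Agent.Helper21.TO Pool.Agent.Helper21.TB Pool.Agent.Helper15.GT Pool.Agent.Helper15.KP

universe u

variable {k : Type u} [Field k] [IsAlgClosed k] [CharZero k]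

lemma vp_mono {F : Type u} [Field F] [Algebra k F] {p q : ℕ} (h : VP k F p) (hpq : p ≤ q) : VP k F q :=
  fun M ξ hξ n hn => h M ξ hξ n (by omega)

/-- A minimal Weierstrass equation over the projective line. -/
theorem vp_min (N : ℕ) (hN : 1 ≤ N) (A B : k[X]) (hA : A.natDegree ≤ 4 * N) (hB : B.natDegree ≤ 6 * N)
    (hinf : 4 * N < A.natDegree + 4 ∨ 6 * N < B.natDegree + 6)
    (hmin : ∀ c : k, ¬ ((X - C c) ^ 4 ∣ A ∧ (X - C c) ^ 6 ∣ B)) (hd : 4 * A ^ 3 + 27 * B ^ 2 ≠ 0)
    {E : Type u} [Field E] [Algebra k E] (l x y : E) (hlx : AlgebraicIndependent k ![l, x])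
    (he : y ^ 2 = x ^ 3 + aeval l A * x + aeval l B) (hgen : IntermediateField.adjoin k {l, x, y} = ⊤) :
    VP k E (N - 1) := by
  classical
  let K := IntermediateField.adjoin k {l}
  let l' : K := ⟨l, IntermediateField.mem_adjoin_simple_self k l⟩
  have hl : Transcendental k l' := trans_gen (ind_fst hlx)
  have htop : IntermediateField.adjoin k {l'} = ⊤ := adjoin_gen_top l
  have hK : IsFunctionField k K := line_ff hl htop
  obtain ⟨P₀, hP₀, hP⟩ := exists_inf hl htop
  have hmap : ∀ p : k[X], algebraMap K E (aeval l' p) = aeval l p := by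
    intro p
    exact (aeval_algebraMap_apply E l' p).symm
  have hgen' : IntermediateField.adjoin K {x, y} = ⊤ := by
    rw [eq_top_iff]
    intro z _
    have hz : z ∈ IntermediateField.adjoin k {l, x, y} := by
      rw [hgen]
      exact IntermediateField.mem_top
    have hle : IntermediateField.adjoin k {l, x, y} ≤ (IntermediateField.adjoin K {x, y}).restrictScalars k := by
      rw [IntermediateField.adjoin_le_iff]
      rintro z (rfl | rfl | rfl)
      · exact (IntermediateField.adjoin K {x, y}).algebraMap_mem l'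
      · exact IntermediateField.subset_adjoin K _ (Or.inl rfl)
      · exact IntermediateField.subset_adjoin K _ (Or.inr rfl)
    exact hle hz
  obtain ⟨L, Ω, _, _, _, _, _, _, _, _, T, f, ha, hb, hf, hfix, -⟩ := exists_fibration hK (aeval l' A) (aeval l' B) (by
    have h1 := aeval_ne hl hd
    simp only [map_add, map_mul, map_pow, map_ofNat] at h1
    exact h1) x y (ind_snd hlx) (by rw [hmap, hmap]; exact he) hgen'
  have hsum : ((Finsupp.single P₀ (N : ℤ)).sum fun _ m => m) = ((N - 1 : ℕ) : ℤ) + 1 := by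
    rw [Finsupp.sum_single_index rfl]
    omega
  have hne : ∀ P : Place k K, P ≠ P₀ → (Finsupp.single P₀ (N : ℤ)) P = 0 := fun P hPP => by
    rw [Finsupp.single_apply, if_neg (Ne.symm hPP)]
  refine vp_fib0 T (line_genus hl htop) (Finsupp.single P₀ (N : ℤ)) ?_ ?_ ?_ ?_ f hfix hsum
  · intro P h0
    rw [ha] at h0 ⊢
    have hA0 : A ≠ 0 := by
      rintro rfl
      exact h0 (map_zero _)
    by_cases hPP : P = P₀
    · rw [hPP, Finsupp.single_eq_same, ord_inf hl htop hP₀ hA0]
      omega
    · obtain ⟨c, hc⟩ := ord_fin hl htop (hP P hPP)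
      rw [hne P hPP, hc hA0]
      positivity
  · intro P h0
    rw [hb] at h0 ⊢
    have hB0 : B ≠ 0 := by
      rintro rfl
      exact h0 (map_zero _)
    by_cases hPP : P = P₀
    · rw [hPP, Finsupp.single_eq_same, ord_inf hl htop hP₀ hB0]
      omega
    · obtain ⟨c, hc⟩ := ord_fin hl htop (hP P hPP)
      rw [hne P hPP, hc hB0]
      positivity
  · intro P
    rw [ha, hb]
    by_cases hPP : P = P₀
    · rw [hPP, Finsupp.single_eq_same]
      rcases hinf with h | h
      · have hA0 : A ≠ 0 := by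
          rintro rfl
          rw [natDegree_zero] at h
          omega
        refine Or.inl ⟨aeval_ne hl hA0, ?_⟩
        rw [ord_inf hl htop hP₀ hA0]
        omega
      · have hB0 : B ≠ 0 := by
          rintro rfl
          rw [natDegree_zero] at h
          omega
        refine Or.inr ⟨aeval_ne hl hB0, ?_⟩
        rw [ord_inf hl htop hP₀ hB0]
        omega
    · obtain ⟨c, hc⟩ := ord_fin hl htop (hP P hPP)
      rw [hne P hPP]
      by_cases hA' : (X - C c) ^ 4 ∣ A
      · have hB' : ¬ (X - C c) ^ 6 ∣ B := fun h => hmin c ⟨hA', h⟩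
        have hB0 : B ≠ 0 := by
          rintro rfl
          exact hB' (dvd_zero _)
        refine Or.inr ⟨aeval_ne hl hB0, ?_⟩
        rw [hc hB0]
        have h1 := (le_rootMultiplicity_iff hB0 (n := 6) (a := c)).not.mpr hB'
        omega
      · have hA0 : A ≠ 0 := by
          rintro rfl
          exact hA' (dvd_zero _)
        refine Or.inl ⟨aeval_ne hl hA0, ?_⟩
        rw [hc hA0]
        have h1 := (le_rootMultiplicity_iff hA0 (n := 4) (a := c)).not.mpr hA'
        omega
  · rintro ⟨u, hu, h⟩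
    have h1 : FF.dv hK u = Finsupp.single P₀ (N : ℤ) := by
      ext P
      rw [FF.dv_apply]
      exact h P
    have h2 := FF.deg_dv hK hu
    rw [h1, FF.deg_single] at h2
    omega

lemma exists_red : ∀ (n : ℕ) (A B : k[X]), (A ≠ 0 ∨ B ≠ 0) → A.natDegree + B.natDegree = n →
    ∃ U A' B' : k[X], U ≠ 0 ∧ A = A' * U ^ 4 ∧ B = B' * U ^ 6 ∧
      ∀ c : k, ¬ ((X - C c) ^ 4 ∣ A' ∧ (X - C c) ^ 6 ∣ B') := by
  intro n
  induction n using Nat.strong_induction_on with
  | _ n ih =>
    intro A B h hn
    by_cases hc : ∃ c : k, (X - C c) ^ 4 ∣ A ∧ (X - C c) ^ 6 ∣ B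
    · obtain ⟨c, ⟨A₁, hA⟩, B₁, hB⟩ := hc
      have hX : (X - C c : k[X]) ≠ 0 := X_sub_C_ne_zero c
      have hdeg : ∀ (m : ℕ) (p : k[X]), p ≠ 0 → ((X - C c) ^ m * p).natDegree = m + p.natDegree := by
        intro m p hp
        rw [natDegree_mul (pow_ne_zero _ hX) hp, natDegree_pow, natDegree_X_sub_C, mul_one]
      have h1 : A₁ ≠ 0 ∨ B₁ ≠ 0 := by
        rcases h with h | h
        · left
          rintro rfl
          exact h (by rw [hA, mul_zero])
        · right
          rintro rfl
          exact h (by rw [hB, mul_zero])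
      have h2 : A₁.natDegree + B₁.natDegree < n := by
        rw [← hn, hA, hB]
        by_cases hA1 : A₁ = 0
        · have hB1 : B₁ ≠ 0 := h1.resolve_left (fun h => h hA1)
          rw [hdeg 6 B₁ hB1, hA1, natDegree_zero]
          omega
        · rw [hdeg 4 A₁ hA1]
          by_cases hB1 : B₁ = 0
          · rw [hB1, natDegree_zero]
            omega
          · rw [hdeg 6 B₁ hB1]
            omega
      obtain ⟨U, A', B', hU, hA', hB', hmin⟩ := ih _ h2 A₁ B₁ h1 rfl
      refine ⟨(X - C c) * U, A', B', mul_ne_zero hX hU, ?_, ?_, hmin⟩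
      · rw [hA, hA']
        ring
      · rw [hB, hB']
        ring
    · push Not at hc
      refine ⟨1, A, B, one_ne_zero, by ring, by ring, fun c h => hc c h.1 h.2⟩

theorem ellVP' (A B : k[X]) (hA : A.natDegree ≤ 8) (hB : B.natDegree ≤ 12) (hd : A ^ 3 + B ^ 2 ≠ 0) :
    EllVP k (27 * X ^ 4 * A) (54 * X ^ 6 * B) 1 ∨ ∃ (α β : k) (U : k[X]), U ≠ 0 ∧ A = C α * U ^ 4 ∧
      B = C β * U ^ 6 := by
  classical
  have h0 : A ≠ 0 ∨ B ≠ 0 := by
    by_contra hcon
    push Not at hcon
    apply hd
    rw [hcon.1, hcon.2]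
    ring
  obtain ⟨U, A', B', hU, hA', hB', hmin⟩ := exists_red _ A B h0 rfl
  have hle : ∀ (p : k[X]) (m : ℕ), p.natDegree ≤ (p * U ^ m).natDegree := by
    intro p m
    by_cases hp : p = 0
    · rw [hp, zero_mul]
    · rw [natDegree_mul hp (pow_ne_zero _ hU)]
      omega
  have hA8 : A'.natDegree ≤ 8 := (hle A' 4).trans (by rw [← hA']; exact hA)
  have hB12 : B'.natDegree ≤ 12 := (hle B' 6).trans (by rw [← hB']; exact hB)
  by_cases hcst : A'.natDegree = 0 ∧ B'.natDegree = 0
  · right
    obtain ⟨α, hα⟩ := natDegree_eq_zero.mp hcst.1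
    obtain ⟨β, hβ⟩ := natDegree_eq_zero.mp hcst.2
    exact ⟨α, β, U, hU, by rw [hα]; exact hA', by rw [hβ]; exact hB'⟩
  left
  intro E _ _ l x y hlx he hgen
  have hl : Transcendental k l := ind_fst hlx
  have hv : aeval l (X * U) ≠ 0 := aeval_ne hl (mul_ne_zero X_ne_zero hU)
  obtain ⟨v, hv'⟩ : ∃ v, v = aeval l (X * U) := ⟨_, rfl⟩
  rw [← hv'] at hv
  have hv1 : v = l * aeval l U := by rw [hv', map_mul, aeval_X]
  have hvl : v ∈ IntermediateField.adjoin k {l} := by
    rw [hv']
    exact (IntermediateField.algebra_adjoin_le_adjoin k {l}) (aeval_mem_adjoin_singleton k l)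
  -- the minimal equation
  have he' : (y / v ^ 3) ^ 2 = (x / v ^ 2) ^ 3 + aeval l (27 * A') * (x / v ^ 2) + aeval l (54 * B') := by
    have h1 : y ^ 2 = x ^ 3 + 27 * v ^ 4 * aeval l A' * x + 54 * v ^ 6 * aeval l B' := by
      rw [he, hA', hB', hv1]
      simp only [map_mul, map_pow, aeval_X, map_ofNat]
      ring
    simp only [map_mul, map_ofNat]
    field_simp
    linear_combination h1
  have hxv : AlgebraicIndependent k ![l, x / v ^ 2] := by
    refine ind_of hl ?_
    intro h
    apply ind_snd hlx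
    have h2 : x = x / v ^ 2 * v ^ 2 := by field_simp
    rw [h2]
    refine h.mul (IsAlgebraic.pow ?_ 2)
    exact isAlgebraic_algebraMap (⟨v, hvl⟩ : IntermediateField.adjoin k {l})
  have hgen' : IntermediateField.adjoin k {l, x / v ^ 2, y / v ^ 3} = ⊤ := by
    rw [eq_top_iff, ← hgen, IntermediateField.adjoin_le_iff]
    have hl1 : l ∈ IntermediateField.adjoin k {l, x / v ^ 2, y / v ^ 3} :=
      IntermediateField.subset_adjoin k _ (Or.inl rfl)
    have hv2 : v ∈ IntermediateField.adjoin k {l, x / v ^ 2, y / v ^ 3} := by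
      have h1 : IntermediateField.adjoin k {l} ≤ IntermediateField.adjoin k {l, x / v ^ 2, y / v ^ 3} := by
        rw [IntermediateField.adjoin_simple_le_iff]
        exact hl1
      exact h1 hvl
    rintro z (hz | hz | hz)
    · rw [hz]
      exact hl1
    · rw [hz]
      have h1 : x / v ^ 2 ∈ IntermediateField.adjoin k {l, x / v ^ 2, y / v ^ 3} :=
        IntermediateField.subset_adjoin k _ (Or.inr (Or.inl rfl))
      have h2 := mul_mem h1 (pow_mem hv2 2)
      rwa [div_mul_cancel₀ _ (pow_ne_zero 2 hv)] at h2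
    · rw [Set.mem_singleton_iff.mp hz]
      have h1 : y / v ^ 3 ∈ IntermediateField.adjoin k {l, x / v ^ 2, y / v ^ 3} :=
        IntermediateField.subset_adjoin k _ (Or.inr (Or.inr rfl))
      have h2 := mul_mem h1 (pow_mem hv2 3)
      rwa [div_mul_cancel₀ _ (pow_ne_zero 3 hv)] at h2
  have h27 : ∀ (n : k) (p : k[X]), n ≠ 0 → (C n * p).natDegree = p.natDegree := fun n p hn =>
    natDegree_C_mul hn
  have e27 : (27 : k[X]) = C 27 := by rw [map_ofNat]
  have e54 : (54 : k[X]) = C 54 := by rw [map_ofNat]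
  have d27 : (27 * A').natDegree = A'.natDegree := by
    rw [e27]
    exact natDegree_C_mul (by norm_num)
  have d54 : (54 * B').natDegree = B'.natDegree := by
    rw [e54]
    exact natDegree_C_mul (by norm_num)
  have hmin' : ∀ c : k, ¬ ((X - C c) ^ 4 ∣ 27 * A' ∧ (X - C c) ^ 6 ∣ 54 * B') := by
    intro c h
    apply hmin c
    have hu27 : IsUnit (27 : k[X]) := by
      rw [e27]
      exact isUnit_C.mpr (by norm_num)
    have hu54 : IsUnit (54 : k[X]) := by
      rw [e54]
      exact isUnit_C.mpr (by norm_num)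
    exact ⟨(hu27.dvd_mul_left).mp h.1, (hu54.dvd_mul_left).mp h.2⟩
  have hd' : 4 * (27 * A') ^ 3 + 27 * (54 * B') ^ 2 ≠ 0 := by
    intro h
    apply hd
    have h1 : A' ^ 3 + B' ^ 2 = 0 := by
      have h2 : (78732 : k[X]) * (A' ^ 3 + B' ^ 2) = 0 := by linear_combination h
      rcases mul_eq_zero.mp h2 with h3 | h3
      · exfalso
        have h4 : (C (78732 : k) : k[X]) = 0 := by
          rw [map_ofNat]
          exact h3
        rw [C_eq_zero] at h4
        norm_num at h4
      · exact h3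
    rw [hA', hB']
    linear_combination U ^ 12 * h1
  by_cases hN : A'.natDegree ≤ 4 ∧ B'.natDegree ≤ 6
  · refine vp_mono (vp_min 1 le_rfl (27 * A') (54 * B') (by rw [d27]; exact hN.1) (by rw [d54]; exact hN.2) ?_
      hmin' hd' l (x / v ^ 2) (y / v ^ 3) hxv he' hgen') (by omega)
    rw [d27, d54]
    omega
  · refine vp_mono (vp_min 2 one_le_two (27 * A') (54 * B') (by rw [d27]; exact hA8) (by rw [d54]; exact hB12) ?_
      hmin' hd' l (x / v ^ 2) (y / v ^ 3) hxv he' hgen') (by omega)
    rw [d27, d54]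
    omega

end Pool.Agent.Helper70.KX

namespace Pool.Agent.Helper15.KP

open Polynomial

universe u

/-- ELL: an elliptic surface over the projective line with coefficients of degrees at most eight and twelve has
Voisin's property for `n ≥ 2`, or it is a product. -/
theorem ellVP {k : Type u} [Field k] [IsAlgClosed k] [CharZero k] (A B : k[X]) (hA : A.natDegree ≤ 8)
    (hB : B.natDegree ≤ 12) (hd : A ^ 3 + B ^ 2 ≠ 0) :
    EllVP k (27 * X ^ 4 * A) (54 * X ^ 6 * B) 1 ∨ ∃ (α β : k) (U : k[X]), U ≠ 0 ∧ A = C α * U ^ 4 ∧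
      B = C β * U ^ 6 :=
  Pool.Agent.Helper70.KX.ellVP' A B hA hB hd

end Pool.Agent.Helper15.KP
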