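import Mathlib
import Pool.Agent.Helper9.NS
import Pool.Agent.Helper21.TZ.RedH
import Pool.Agent.Helper15.KP.HFb

/-!
# KX: the poles of the coordinates of an elliptic curve
-/

set_option linter.unusedSectionVars false

namespace Pool.Agent.Helper70.KX

open VC _root_.VF Function Polynomial
open Pool.Agent.Helper21.TO Pool.Agent.Helper21.TB Pool.Agent.Helper21.TZ Pool.Agent.Helper15.GT Pool.Agent.Helper15.KP
open Pool.Agent.Helper51.VN (Harm)

universe u

variable {k K : Type u} [Field k] [IsAlgClosed k] [CharZero k] [Field K] [Algebra k K] {a b : k}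

/-- `(x, y)` is the generic point of the curve, `K = k (x, y)`. -/
structure GPt (k : Type u) {K : Type u} [Field k] [Field K] [Algebra k K] (a b : k) (x y : K) : Prop where
  hx : Transcendental k x
  he : y ^ 2 = x ^ 3 + algebraMap k K a * x + algebraMap k K b
  gen : IntermediateField.adjoin k {x, y} = ⊤

lemma GPt.x_ne {x y : K} (h : GPt k a b x y) : x ≠ 0 := by
  rintro rfl
  exact h.hx isAlgebraic_zero

lemma GPt.finrank_le {x y : K} (h : GPt k a b x y) :
    0 < Module.finrank (IntermediateField.adjoin k {x⁻¹}) K ∧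
      Module.finrank (IntermediateField.adjoin k {x⁻¹}) K ≤ 2 := by
  let K₀ := IntermediateField.adjoin k {x⁻¹}
  have hx0 : x⁻¹ ∈ K₀ := IntermediateField.mem_adjoin_simple_self k _
  have hxm : x ∈ K₀ := by
    have h1 := inv_mem hx0
    rwa [inv_inv] at h1
  have hf : x ^ 3 + algebraMap k K a * x + algebraMap k K b ∈ K₀ :=
    add_mem (add_mem (pow_mem hxm 3) (mul_mem (K₀.algebraMap_mem a) hxm)) (K₀.algebraMap_mem b)
  let f : K₀ := ⟨_, hf⟩
  have hm : (X ^ 2 - C f : K₀[X]).Monic := monic_X_pow_sub_C f two_ne_zero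
  have hev : aeval y (X ^ 2 - C f : K₀[X]) = 0 := by
    rw [map_sub, map_pow, aeval_X, aeval_C, h.he]
    exact sub_self _
  have hint : IsIntegral K₀ y := ⟨_, hm, by rw [← aeval_def]; exact hev⟩
  have hdeg : (minpoly K₀ y).natDegree ≤ 2 := by
    have h1 := minpoly.min K₀ y hm hev
    have h2 := natDegree_le_natDegree h1
    rwa [natDegree_X_pow_sub_C] at h2
  have htop : IntermediateField.adjoin K₀ {y} = ⊤ := by
    rw [eq_top_iff]
    intro z _
    have hle : IntermediateField.adjoin k {x, y} ≤ (IntermediateField.adjoin K₀ {y}).restrictScalars k := by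
      rw [IntermediateField.adjoin_le_iff]
      rintro z (hz | hz)
      · rw [hz]
        exact (IntermediateField.adjoin K₀ {y}).algebraMap_mem ⟨x, hxm⟩
      · rw [Set.mem_singleton_iff.mp hz]
        exact IntermediateField.mem_adjoin_simple_self K₀ y
    exact hle (by rw [h.gen]; exact IntermediateField.mem_top)
  have h1 := IntermediateField.adjoin.finrank hint
  rw [htop, IntermediateField.finrank_top'] at h1
  rw [h1]
  exact ⟨minpoly.natDegree_pos hint, hdeg⟩

lemma GPt.ff {x y : K} (h : GPt k a b x y) : IsFunctionField k K := by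
  refine ⟨x⁻¹, FF.transcendental_inv' h.hx, ?_⟩
  exact Module.finite_of_finrank_pos h.finrank_le.1

lemma GPt.ord_even {x y : K} (h : GPt k a b x y) {v : Place k K} (hv : x ∉ v.ring) : ord v.ring x ≤ -2 := by
  have hK := h.ff
  have hx0 := h.x_ne
  have h1 : ord v.ring x < 0 := by
    have := (FF.ord_nonneg_iff hK v hx0).not.mpr hv
    omega
  have hy0 : y ≠ 0 := by
    intro h0
    have h2 := h.he
    rw [h0, zero_pow two_ne_zero] at h2
    refine h.hx ⟨X ^ 3 + C a * X + C b, ?_, ?_⟩
    · have hm : (X ^ 3 + C a * X + C b : k[X]).Monic := by monicity!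
      exact hm.ne_zero
    · simp only [map_add, map_mul, map_pow, aeval_X, aeval_C]
      exact h2.symm
  have h2 : ord v.ring (y ^ 2) = 3 * ord v.ring x := by
    rw [h.he, add_assoc]
    by_cases h0 : algebraMap k K a * x + algebraMap k K b = 0
    · rw [h0, add_zero, FF.ord_pow hK v hx0]
      rfl
    · have h3 : ord v.ring x ≤ ord v.ring (algebraMap k K a * x + algebraMap k K b) := by
        by_cases ha : a = 0
        · rw [ha, map_zero, zero_mul, zero_add] at h0 ⊢
          have hb : b ≠ 0 := by
            rintro rfl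
            exact h0 (map_zero _)
          rw [FF.ord_algebraMap hK v hb]
          omega
        · have ha' : algebraMap k K a ≠ 0 := (_root_.map_ne_zero _).mpr ha
          by_cases hb : b = 0
          · rw [hb, map_zero, add_zero, FF.ord_mul hK v ha' hx0, FF.ord_algebraMap hK v ha, zero_add]
          · have hb' : algebraMap k K b ≠ 0 := (_root_.map_ne_zero _).mpr hb
            have h4 := FF.ord_add_ge hK v (mul_ne_zero ha' hx0) hb' h0
            rw [FF.ord_mul hK v ha' hx0, FF.ord_algebraMap hK v ha, FF.ord_algebraMap hK v hb, zero_add,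
              min_eq_left (by omega)] at h4
            exact h4
      have h4 : ord v.ring (x ^ 3) = 3 * ord v.ring x := by
        rw [FF.ord_pow hK v hx0]
        rfl
      rw [← h4]
      refine (FF.ord_add_eq_left hK v (pow_ne_zero 3 hx0) h0 ?_).2
      rw [h4]
      omega
  rw [FF.ord_pow hK v hy0] at h2
  push_cast at h2
  omega

/-- The first coordinate has a unique pole, of order two. -/
lemma GPt.pole {x y : K} (h : GPt k a b x y) : ∃ v₀ : Place k K, ord v₀.ring x = -2 ∧
    ∀ v : Place k K, x ∉ v.ring → v = v₀ := by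
  classical
  have hK := h.ff
  have hx0 := h.x_ne
  have hinv := FF.transcendental_inv' h.hx
  obtain ⟨v₀, hv₀⟩ := FF.exists_place hinv
  have hle : ∀ S : Finset (Place k K), (∀ P ∈ S, x⁻¹ ∈ P.ring.nonunits) →
      ∑ P ∈ S, ord P.ring x⁻¹ ≤ 2 := by
    intro S hS
    have h1 := FF.sum_ord_le hK hinv S hS
    have h2 := h.finrank_le.2
    omega
  have hnon : ∀ v : Place k K, x⁻¹ ∈ v.ring.nonunits ↔ x ∉ v.ring := by
    intro v
    rw [← FF.ord_pos_iff hK v (inv_ne_zero hx0), FF.ord_inv hK v hx0, ← FF.ord_nonneg_iff hK v hx0]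
    omega
  have h0 := h.ord_even ((hnon v₀).mp hv₀)
  have h1 := hle {v₀} (by simpa using hv₀)
  rw [Finset.sum_singleton, FF.ord_inv hK v₀ hx0] at h1
  refine ⟨v₀, by omega, fun v hv => ?_⟩
  by_contra hne
  have h2 := hle {v, v₀} (by
    intro P hP
    rcases Finset.mem_insert.mp hP with rfl | hP
    · exact (hnon _).mpr hv
    · rw [Finset.mem_singleton.mp hP]
      exact hv₀)
  rw [Finset.sum_pair hne, FF.ord_inv hK v₀ hx0, FF.ord_inv hK v hx0] at h2
  have h3 := h.ord_even hv
  omega

end Pool.Agent.Helper70.KX
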