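import Mathlib
import Pool.Agent.Helper9.NS
import Pool.Agent.Helper70.KX.EPole

/-!
# KX: the divisors of the vertical lines
-/

set_option linter.unusedSectionVars false

namespace Pool.Agent.Helper70.KX

open VC _root_.VF Function Polynomial
open Pool.Agent.Helper21.TO Pool.Agent.Helper21.TB Pool.Agent.Helper21.TZ Pool.Agent.Helper15.GT Pool.Agent.Helper15.KP
open Pool.Agent.Helper51.VN (Harm)

universe u

variable {k K : Type u} [Field k] [IsAlgClosed k] [CharZero k] [Field K] [Algebra k K] {a b : k}

lemma harm_dv {hK : IsFunctionField k K} {lam : Place k K → k} (h : Harm hK lam) {f : K} (hf : f ≠ 0) :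
    Finsupp.linearCombination ℤ lam (FF.dv hK f) = 0 := by
  classical
  rw [← h f hf, Finsupp.linearCombination_apply, Finsupp.sum]
  have h7 : (FF.dv hK f).support = (finite_support_ord hK hf).toFinset := by
    ext v
    rw [Finsupp.mem_support_iff, Set.Finite.mem_toFinset, FF.dv_apply]
    rfl
  rw [h7]
  refine Finset.sum_congr rfl fun v _ => ?_
  rw [FF.dv_apply, zsmul_eq_mul]

lemma ord_res_zero (hK : IsFunctionField k K) {v : Place k K} {z : K} {c : k} (h : IsRes v z c) (hc : c ≠ 0) :
    ord v.ring z = 0 := by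
  have h1 := h.inv_mem hc
  have h2 := (FF.ord_nonneg_iff hK v h1.1).mpr h.mem
  have h3 := (FF.ord_nonneg_iff hK v (inv_ne_zero h1.1)).mpr h1.2
  rw [FF.ord_inv hK v h1.1] at h3
  omega

lemma ord_res_pos (hK : IsFunctionField k K) {v : Place k K} {z : K} {c : k} (h : IsRes v z c)
    (hz : z - algebraMap k K c ≠ 0) : 1 ≤ ord v.ring (z - algebraMap k K c) :=
  (FF.ord_pos_iff hK v hz).mpr h

/-- At a point of order two the coordinate is ramified. -/
lemma GPt.ord_two {x y : K} (h : GPt k a b x y) (hΔ : 4 * a ^ 3 + 27 * b ^ 2 ≠ 0) {v : Place k K} {c : k}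
    (h1 : IsRes v x c) (h2 : IsRes v y 0) : 2 ≤ ord v.ring (x - algebraMap k K c) := by
  have hK := h.ff
  have hcub : c ^ 3 + a * c + b = 0 := by
    have h3 : IsRes v (y ^ 2) (0 * 0) := by
      rw [pow_two]
      exact h2.mul h2
    have h4 : IsRes v (x ^ 3 + algebraMap k K a * x + algebraMap k K b) (c * c * c + a * c + b) := by
      have e : x ^ 3 = x * x * x := by ring
      rw [e]
      exact (((h1.mul h1).mul h1).add ((isRes_const a).mul h1)).add (isRes_const b)
    rw [h.he] at h3
    have h5 := h4.unique h3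
    linear_combination h5
  have hc3 : 3 * c ^ 2 + a ≠ 0 := by
    intro h0
    apply hΔ
    have ha : a = -3 * c ^ 2 := by linear_combination h0
    have hb : b = 2 * c ^ 3 := by
      rw [ha] at hcub
      linear_combination hcub
    rw [ha, hb]
    ring
  have hxc : x - algebraMap k K c ≠ 0 := by
    intro h0
    apply h.hx
    rw [sub_eq_zero.mp h0]
    exact isAlgebraic_algebraMap c
  have hfac : y ^ 2 = (x - algebraMap k K c) * (x ^ 2 + algebraMap k K c * x + algebraMap k K (c ^ 2 + a)) := by
    have h3 := congrArg (algebraMap k K) hcub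
    simp only [map_add, map_mul, map_pow, map_zero] at h3
    rw [h.he]
    simp only [map_add, map_pow]
    linear_combination h3
  have hg : IsRes v (x ^ 2 + algebraMap k K c * x + algebraMap k K (c ^ 2 + a)) (c * c + c * c + (c ^ 2 + a)) := by
    rw [pow_two]
    exact ((h1.mul h1).add ((isRes_const c).mul h1)).add (isRes_const (c ^ 2 + a))
  have hg0 : c * c + c * c + (c ^ 2 + a) ≠ 0 := by
    intro h0
    apply hc3
    linear_combination h0
  have hgne := (hg.inv_mem hg0).1
  have hy0 : y ≠ 0 := by
    intro h0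
    rw [h0, zero_pow two_ne_zero] at hfac
    rcases mul_eq_zero.mp hfac.symm with h3 | h3
    · exact hxc h3
    · exact hgne h3
  have h3 : 1 ≤ ord v.ring y := by
    have h4 : y - algebraMap k K 0 ≠ 0 := by rwa [map_zero, sub_zero]
    have h5 := ord_res_pos hK h2 h4
    rwa [map_zero, sub_zero] at h5
  have h4 := congrArg (ord v.ring) hfac
  rw [FF.ord_pow hK v hy0, FF.ord_mul hK v hxc hgne, ord_res_zero hK hg hg0, add_zero] at h4
  rw [← h4]
  push_cast
  omega

theorem GPt.vert {x y : K} (h : GPt k a b x y) (hΔ : 4 * a ^ 3 + 27 * b ^ 2 ≠ 0) {lam : Place k K → k}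
    (hl : Harm h.ff lam) {v₀ v₁ v₂ : Place k K} (h0 : x ∉ v₀.ring) {c d : k} (h1 : IsRes v₁ x c)
    (h1' : IsRes v₁ y d) (h2 : IsRes v₂ x c) (h2' : IsRes v₂ y (-d)) : lam v₁ + lam v₂ = 2 * lam v₀ := by
  classical
  have hK := h.ff
  obtain ⟨vp, hvp, huniq⟩ := h.pole
  obtain rfl := huniq v₀ h0
  have hxc : x - algebraMap k K c ≠ 0 := by
    intro h0
    apply h.hx
    rw [sub_eq_zero.mp h0]
    exact isAlgebraic_algebraMap c
  have hpole : ord v₀.ring (x - algebraMap k K c) = -2 := by
    by_cases hc : c = 0
    · rw [hc, map_zero, sub_zero]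
      exact hvp
    · have h3 : -algebraMap k K c ≠ 0 := neg_ne_zero.mpr ((_root_.map_ne_zero _).mpr hc)
      rw [sub_eq_add_neg]
      rw [(FF.ord_add_eq_left hK v₀ h.x_ne h3 (by
        rw [FF.ord_neg hK v₀ ((_root_.map_ne_zero _).mpr hc), FF.ord_algebraMap hK v₀ hc, hvp]
        norm_num)).2]
      exact hvp
  have hge : ∀ v : Place k K, v ≠ v₀ → 0 ≤ ord v.ring (x - algebraMap k K c) := by
    intro v hv
    rw [FF.ord_nonneg_iff hK v hxc]
    refine sub_mem ?_ (v.algebraMap_mem c)
    by_contra hcon
    exact hv (huniq v hcon)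
  have hne : ∀ v : Place k K, IsRes v x c → v ≠ v₀ := by
    rintro v hv rfl
    exact h0 hv.mem
  have hdeg := FF.deg_dv hK hxc
  have key : ∀ D : Place k K →₀ ℤ, FF.deg D = 0 → (∀ v, 0 ≤ (FF.dv hK (x - algebraMap k K c) - D) v) →
      Finsupp.linearCombination ℤ lam D = 0 := by
    intro D hD hpos
    have h3 : FF.dv hK (x - algebraMap k K c) - D = 0 := FF.eq_zero_of_deg hpos (by rw [map_sub, hdeg, hD, sub_zero])
    rw [← sub_eq_zero.mp h3]
    exact harm_dv hl hxc
  by_cases hd : d = 0
  · rw [hd, neg_zero] at h2'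
    rw [hd] at h1'
    have hone : ∀ v : Place k K, IsRes v x c → IsRes v y 0 → lam v = lam v₀ := by
      intro v hv hv'
      have h3 := key (Finsupp.single v 2 - Finsupp.single v₀ 2) (by
        rw [map_sub, FF.deg_single, FF.deg_single, sub_self]) (fun v' => by
        rw [Finsupp.sub_apply, Finsupp.sub_apply, FF.dv_apply]
        by_cases hv1 : v' = v
        · rw [hv1, Finsupp.single_eq_same, Finsupp.single_apply, if_neg (Ne.symm (hne v hv))]
          have := h.ord_two hΔ hv hv'
          omega
        · rw [Finsupp.single_apply, if_neg (Ne.symm hv1)]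
          by_cases hv2 : v' = v₀
          · rw [hv2, Finsupp.single_eq_same, hpole]
            norm_num
          · rw [Finsupp.single_apply, if_neg (Ne.symm hv2)]
            have := hge v' hv2
            omega)
      rw [map_sub, Finsupp.linearCombination_single, Finsupp.linearCombination_single, sub_eq_zero, zsmul_eq_mul,
        zsmul_eq_mul] at h3
      exact mul_left_cancel₀ (by norm_num) h3
    rw [hone v₁ h1 h1', hone v₂ h2 h2']
    ring
  · have hv12 : v₁ ≠ v₂ := by
      rintro rfl
      have h3 := h1'.unique h2'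
      apply hd
      have h4 : (2 : k) * d = 0 := by linear_combination h3
      exact (mul_eq_zero.mp h4).resolve_left two_ne_zero
    have h3 := key (Finsupp.single v₁ 1 + Finsupp.single v₂ 1 - Finsupp.single v₀ 2) (by
      rw [map_sub, map_add, FF.deg_single, FF.deg_single, FF.deg_single]
      norm_num) (fun v' => by
      rw [Finsupp.sub_apply, Finsupp.sub_apply, Finsupp.add_apply, FF.dv_apply]
      by_cases hv1 : v' = v₁
      · rw [hv1, Finsupp.single_eq_same, Finsupp.single_apply, Finsupp.single_apply, if_neg (Ne.symm hv12),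
          if_neg (Ne.symm (hne v₁ h1))]
        have := ord_res_pos hK h1 hxc
        omega
      · by_cases hv2 : v' = v₂
        · rw [hv2, Finsupp.single_eq_same, Finsupp.single_apply, Finsupp.single_apply, if_neg hv12,
            if_neg (Ne.symm (hne v₂ h2))]
          have := ord_res_pos hK h2 hxc
          omega
        · rw [Finsupp.single_apply, Finsupp.single_apply, if_neg (Ne.symm hv1), if_neg (Ne.symm hv2)]
          by_cases hv0 : v' = v₀
          · rw [hv0, Finsupp.single_eq_same, hpole]
            norm_num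
          · rw [Finsupp.single_apply, if_neg (Ne.symm hv0)]
            have := hge v' hv0
            omega)
    rw [map_sub, map_add, Finsupp.linearCombination_single, Finsupp.linearCombination_single,
      Finsupp.linearCombination_single, one_smul, one_smul, sub_eq_zero, zsmul_eq_mul] at h3
    rw [h3]
    norm_num

end Pool.Agent.Helper70.KX
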