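import Mathlib
import Pool.Agent.Helper9.NS
import Pool.Agent.Helper70.KX.EVert

/-!
# KX: harmonic functions on an elliptic curve are additive
-/

set_option linter.unusedSectionVars false

namespace Pool.Agent.Helper70.KX

open VC _root_.VF Function Polynomial
open Pool.Agent.Helper21.TO Pool.Agent.Helper21.TB Pool.Agent.Helper21.TZ Pool.Agent.Helper15.GT Pool.Agent.Helper15.KP
open Pool.Agent.Helper51.VN (Harm)

universe u

variable {k K : Type u} [Field k] [IsAlgClosed k] [CharZero k] [Field K] [Algebra k K] {a b : k}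

/-- The constant points. -/
noncomputable def cst (K : Type u) [Field K] [Algebra k K] (a b : k) : EPt a b →+ EK k K a b where
  toFun := mapP (Algebra.ofId k K) rfl rfl
  map_zero' := rfl
  map_add' := mapP_add (Algebra.ofId k K) _ _

lemma cst_mk (X Y : k) (h : (sw a b).toAffine.Nonsingular X Y) :
    ∃ h', cst K a b (EPt.mk X Y h) = EPt.mk (algebraMap k K X) (algebraMap k K Y) h' := ⟨_, rfl⟩

lemma redH_cst (hΔ : 4 * a ^ 3 + 27 * b ^ 2 ≠ 0) (w : RPl k K) (P : EPt a b) : redH hΔ w (cst K a b P) = P := by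
  apply redH_eq
  rcases P with _ | ⟨X, Y, h⟩
  · rfl
  · exact ⟨rs_const X, rs_const Y⟩

lemma mapC_cst {N : Type u} [Field N] [Algebra k N] (f : K →ₐ[k] N) (P : EPt a b) :
    mapC f a b (cst K a b P) = cst N a b P := by
  rcases P with _ | ⟨X, Y, h⟩
  · rfl
  · obtain ⟨h1, e1⟩ := cst_mk (K := K) X Y h
    obtain ⟨h2, e2⟩ := cst_mk (K := N) X Y h
    change mapC f a b (cst K a b (EPt.mk X Y h)) = cst N a b (EPt.mk X Y h)
    rw [e1, e2]
    have h3 := f.commutes X
    have h4 := f.commutes Y
    have h5 : (sw (algebraMap k N a) (algebraMap k N b)).toAffine.Nonsingular (f (algebraMap k K X))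
        (f (algebraMap k K Y)) := by
      rw [h3, h4]
      exact h2
    rw [mapC_mk f _ _ h1 h5]
    congr

/-- Subtracting a constant point from the generic point gives a generic point. -/
theorem GPt.sub_cst {x y : K} (h : GPt k a b x y) (hΔ : 4 * a ^ 3 + 27 * b ^ 2 ≠ 0)
    (hns : (sw (algebraMap k K a) (algebraMap k K b)).toAffine.Nonsingular x y) (R : EPt a b) :
    ∃ (x' y' : K) (hns' : (sw (algebraMap k K a) (algebraMap k K b)).toAffine.Nonsingular x' y'),
      GPt k a b x' y' ∧ EPt.mk x y hns - cst K a b R = EPt.mk x' y' hns' := by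
  have hnc : ∀ P : EPt a b, EPt.mk x y hns ≠ cst K a b P := by
    rintro (_ | ⟨X, Y, hXY⟩) h0
    · exact absurd h0 (by
        intro h1
        cases h1)
    · have h1 : EPt.mk x y hns = EPt.mk (algebraMap k K X) (algebraMap k K Y) (cst_mk (K := K) X Y hXY).choose := h0
      have h2 : x = algebraMap k K X := by
        injection h1
      apply h.hx
      rw [h2]
      exact isAlgebraic_algebraMap X
  rcases hZ : EPt.mk x y hns - cst K a b R with _ | ⟨x', y', hns'⟩
  · exfalso
    apply hnc R
    have h1 : EPt.mk x y hns - cst K a b R = 0 := hZ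
    exact sub_eq_zero.mp h1
  · have he' : y' ^ 2 = x' ^ 3 + algebraMap k K a * x' + algebraMap k K b := (sw_nonsingular.mp hns').1
    have hx' : Transcendental k x' := by
      intro hal
      obtain ⟨X, hX⟩ := minpoly.mem_range_of_degree_eq_one k x'
        (IsAlgClosed.degree_eq_one_of_irreducible k (minpoly.irreducible hal.isIntegral))
      have hY' : IsAlgebraic k y' := by
        refine (IsIntegral.of_pow (n := 2) two_pos ?_).isAlgebraic
        rw [he', ← hX, ← map_pow, ← map_mul, ← map_add, ← map_add]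
        exact isIntegral_algebraMap
      obtain ⟨Y, hY⟩ := minpoly.mem_range_of_degree_eq_one k y'
        (IsAlgClosed.degree_eq_one_of_irreducible k (minpoly.irreducible hY'.isIntegral))
      subst hX hY
      have hns0 : (sw a b).toAffine.Nonsingular X Y := by
        refine nonsing_of_disc hΔ ((algebraMap k K).injective ?_)
        rw [map_pow, he', map_add, map_add, map_mul, map_pow]
      have h1 : EPt.mk (algebraMap k K X) (algebraMap k K Y) hns' = cst K a b (EPt.mk X Y hns0) := rfl
      have h2 : EPt.mk x y hns = cst K a b (EPt.mk X Y hns0 + R) := by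
        rw [map_add, ← h1, ← sub_eq_iff_eq_add]
        exact hZ
      exact hnc _ h2
    refine ⟨x', y', hns', ⟨hx', he', ?_⟩, rfl⟩
    let L := IntermediateField.adjoin k {x', y'}
    have hx1 : x' ∈ L := IntermediateField.subset_adjoin k _ (Or.inl rfl)
    have hy1 : y' ∈ L := IntermediateField.subset_adjoin k _ (Or.inr rfl)
    have hnsL : (sw (algebraMap k L a) (algebraMap k L b)).toAffine.Nonsingular (⟨x', hx1⟩ : L) ⟨y', hy1⟩ := by
      haveI : CharZero L := charZero_of_injective_algebraMap (algebraMap k L).injective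
      refine nonsing_of_disc ?_ (Subtype.ext he')
      have h1 : 4 * (algebraMap k L a) ^ 3 + 27 * (algebraMap k L b) ^ 2 =
          algebraMap k L (4 * a ^ 3 + 27 * b ^ 2) := by
        simp only [map_add, map_mul, map_pow, map_ofNat]
      rw [h1]
      exact (_root_.map_ne_zero _).mpr hΔ
    have hWZ : mapC L.val a b (EPt.mk (⟨x', hx1⟩ : L) ⟨y', hy1⟩ hnsL + cst L a b R) = EPt.mk x y hns := by
      rw [map_add, mapC_cst, mapC_mk L.val _ _ hnsL hns', ← eq_sub_iff_add_eq]
      exact hZ.symm
    rcases hW : (EPt.mk (⟨x', hx1⟩ : L) ⟨y', hy1⟩ hnsL + cst L a b R : EK k L a b) with _ | ⟨X, Y, hXY⟩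
    · rw [hW] at hWZ
      exact absurd hWZ (by
        intro h1
        cases h1)
    · rw [hW] at hWZ
      have h1 : (X : K) = x ∧ (Y : K) = y := by
        constructor
        · injection hWZ
        · injection hWZ
      rw [eq_top_iff, ← h.gen, IntermediateField.adjoin_le_iff]
      rintro z (hz | hz)
      · rw [hz, ← h1.1]
        exact X.2
      · rw [Set.mem_singleton_iff.mp hz, ← h1.2]
        exact Y.2

/-- The point of the curve given by a place. -/
noncomputable def ptE (hΔ : 4 * a ^ 3 + 27 * b ^ 2 ≠ 0) (hK : IsFunctionField k K) {x y : K}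
    (hns : (sw (algebraMap k K a) (algebraMap k K b)).toAffine.Nonsingular x y) (v : Place k K) : EPt a b :=
  redH hΔ (rpl hK v) (EPt.mk x y hns)

lemma redH_zero_iff (hΔ : 4 * a ^ 3 + 27 * b ^ 2 ≠ 0) (hK : IsFunctionField k K) {x y : K}
    (hns : (sw (algebraMap k K a) (algebraMap k K b)).toAffine.Nonsingular x y) (v : Place k K) :
    redH hΔ (rpl hK v) (EPt.mk x y hns) = 0 ↔ x ∉ v.ring := by
  have h := redH_spec hΔ (rpl hK v) (EPt.mk x y hns)
  rcases hQ : redH hΔ (rpl hK v) (EPt.mk x y hns) with _ | ⟨X, Y, hXY⟩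
  · rw [hQ] at h
    exact ⟨fun _ => h, fun _ => rfl⟩
  · rw [hQ] at h
    constructor
    · intro h1
      cases h1
    · intro h1
      exact absurd h.1.mem h1

lemma redH_some (hΔ : 4 * a ^ 3 + 27 * b ^ 2 ≠ 0) (hK : IsFunctionField k K) {x y : K}
    (hns : (sw (algebraMap k K a) (algebraMap k K b)).toAffine.Nonsingular x y) (v : Place k K) {X Y : k}
    {hXY : (sw a b).toAffine.Nonsingular X Y} (h : redH hΔ (rpl hK v) (EPt.mk x y hns) = EPt.mk X Y hXY) :
    IsRes v x X ∧ IsRes v y Y := by
  have h1 := redH_spec hΔ (rpl hK v) (EPt.mk x y hns)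
  rw [h] at h1
  exact h1

/-- Every point is the value of a unique place. -/
theorem GPt.exists_place {x y : K} (h : GPt k a b x y) (hΔ : 4 * a ^ 3 + 27 * b ^ 2 ≠ 0)
    (hns : (sw (algebraMap k K a) (algebraMap k K b)).toAffine.Nonsingular x y) (P : EPt a b) :
    ∃ v : Place k K, ptE hΔ h.ff hns v = P ∧ ∀ v', ptE hΔ h.ff hns v' = P → v' = v := by
  obtain ⟨x', y', hns', h', he⟩ := h.sub_cst hΔ hns P
  obtain ⟨v₀, hv₀, huniq⟩ := h'.pole
  have hv0 : x' ∉ v₀.ring := by
    rw [← FF.ord_nonneg_iff h.ff v₀ h'.x_ne, hv₀]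
    norm_num
  have key : ∀ v : Place k K, ptE hΔ h.ff hns v = P ↔ x' ∉ v.ring := by
    intro v
    rw [← redH_zero_iff hΔ h.ff hns' v, ← he, map_sub, redH_cst, sub_eq_zero]
    rfl
  exact ⟨v₀, (key v₀).mpr hv0, fun v' hv' => huniq v' ((key v').mp hv')⟩

theorem exists_psiE {x y : K} (h : GPt k a b x y) (hΔ : 4 * a ^ 3 + 27 * b ^ 2 ≠ 0)
    (hns : (sw (algebraMap k K a) (algebraMap k K b)).toAffine.Nonsingular x y) {lam : Place k K → k}
    (hl : Harm h.ff lam) : ∃ (ψ : EPt a b →+ k) (c : k), ∀ v : Place k K,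
      lam v = ψ (redH hΔ (rpl h.ff v) (EPt.mk x y hns)) + c := by
  classical
  choose pl hpl huniq using h.exists_place hΔ hns
  have hlam : ∀ v, lam v = lam (pl (ptE hΔ h.ff hns v)) := by
    intro v
    rw [← huniq _ v rfl]
  -- Jensen's equation
  have hJ : ∀ R S : EPt a b, lam (pl (R + S)) + lam (pl (R - S)) = 2 * lam (pl R) := by
    intro R S
    obtain ⟨x', y', hns', h', he⟩ := h.sub_cst hΔ hns R
    have hred : ∀ T : EPt a b, redH hΔ (rpl h.ff (pl T)) (EPt.mk x' y' hns') = T - R := by
      intro T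
      rw [← he, map_sub, redH_cst]
      have h1 := hpl T
      change redH hΔ (rpl h.ff (pl T)) (EPt.mk x y hns) = T at h1
      rw [h1]
    rcases hS : S with _ | ⟨c, d, hcd⟩
    · have h1 : (WeierstrassCurve.Affine.Point.zero : EPt a b) = 0 := rfl
      rw [h1, add_zero, sub_zero]
      ring
    · rw [← hS]
      have h0 : x' ∉ (pl R).ring := by
        rw [← redH_zero_iff hΔ h.ff hns', hred, sub_self]
      have h1 := redH_some hΔ h.ff hns' (pl (R + S)) (X := c) (Y := d) (hXY := hcd) (by
        rw [hred, add_sub_cancel_left]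
        exact hS)
      have hneg : -S = EPt.mk c (-d) (by
          have h2 := (sw_nonsingular.mp hcd).1
          exact nonsing_of_disc hΔ (by rw [neg_pow, h2]; ring)) := by
        rw [hS]
        have e2 : (sw a b).toAffine.negY c d = -d := by simp [WeierstrassCurve.Affine.negY]
        exact some_congr_h11 _ _ rfl e2
      have h2 := redH_some hΔ h.ff hns' (pl (R - S)) (X := c) (Y := -d) (by
        rw [hred, sub_sub_cancel_left]
        exact hneg)
      exact h'.vert hΔ hl h0 h1.1 h1.2 h2.1 h2.2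
  let g : EPt a b → k := fun P => lam (pl P) - lam (pl 0)
  have hg0 : ∀ P, g P = lam (pl P) - lam (pl 0) := fun P => rfl
  have hgneg : ∀ P, g (-P) = - g P := by
    intro P
    have h1 := hJ 0 P
    rw [zero_add, zero_sub] at h1
    rw [hg0, hg0]
    linear_combination h1
  have hgadd : ∀ P Q, g (P + Q) = g P + g Q := by
    intro P Q
    have h1 := hJ P Q
    have h2 := hJ Q P
    have h3 := hgneg (P - Q)
    rw [neg_sub, hg0, hg0] at h3
    rw [add_comm Q P] at h2
    rw [hg0, hg0, hg0]
    have h4 : (2 : k) * (lam (pl (P + Q)) - lam (pl 0)) = 2 * (lam (pl P) - lam (pl 0) + (lam (pl Q) - lam (pl 0))) := by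
      linear_combination h1 + h2 - h3
    exact mul_left_cancel₀ two_ne_zero h4
  refine ⟨AddMonoidHom.mk' g hgadd, lam (pl 0), fun v => ?_⟩
  rw [hlam v]
  change lam (pl (ptE hΔ h.ff hns v)) = g (ptE hΔ h.ff hns v) + lam (pl 0)
  rw [hg0]
  ring

end Pool.Agent.Helper70.KX
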