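import Mathlib
import Pool.Agent.Helper9.NS
import Pool.Agent.Helper70.KX.EPsi
import Pool.Agent.Helper17.FF.Transport
import Pool.Agent.Helper21.TZ.Lred

/-!
# KX: additive functions on an elliptic curve which come from harmonic functions
-/

set_option linter.unusedSectionVars false

namespace Pool.Agent.Helper70.KX

open VC _root_.VF Function Polynomial
open Pool.Agent.Helper21.TO Pool.Agent.Helper21.TB Pool.Agent.Helper21.TZ Pool.Agent.Helper15.GT Pool.Agent.Helper15.KP
open Pool.Agent.Helper51.VN (Harm)

universe u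

variable {k K : Type u} [Field k] [IsAlgClosed k] [CharZero k] [Field K] [Algebra k K] {a b : k}

/-- A nonconstant point with coordinates in `K'` gives an embedding, up to sign. -/
theorem GPt.exists_hom {x y : K} (h : GPt k a b x y) {K' : Type u} [Field K'] [Algebra k K'] {X' Y' : K'}
    (hX : Transcendental k X') (he' : Y' ^ 2 = X' ^ 3 + algebraMap k K' a * X' + algebraMap k K' b) :
    ∃ J : K →ₐ[k] K', J x = X' ∧ (J y = Y' ∨ J y = -Y') := by
  obtain ⟨φ, hφ⟩ := FF.exists_hom (Ω := AlgebraicClosure K') h.ff h.hx (b := algebraMap K' (AlgebraicClosure K') X')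
    (by
      intro h1
      exact hX ((isAlgebraic_algebraMap_iff (algebraMap K' (AlgebraicClosure K')).injective).mp h1))
  have hy : φ y = algebraMap K' (AlgebraicClosure K') Y' ∨ φ y = algebraMap K' (AlgebraicClosure K') (-Y') := by
    have h1 : φ y ^ 2 = (algebraMap K' (AlgebraicClosure K') Y') ^ 2 := by
      rw [← map_pow, h.he, ← map_pow, he', map_add, map_add, map_mul, map_pow, hφ, φ.commutes, φ.commutes,
        map_add, map_add, map_mul, map_pow, ← IsScalarTower.algebraMap_apply, ← IsScalarTower.algebraMap_apply]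
    rcases sq_eq_sq_iff_eq_or_eq_neg.mp h1 with h2 | h2
    · exact Or.inl h2
    · exact Or.inr (by rw [map_neg]; exact h2)
  have hrange : ∀ z : K, ∃ z' : K', algebraMap K' (AlgebraicClosure K') z' = φ z := by
    intro z
    have hz : z ∈ IntermediateField.adjoin k {x, y} := by
      rw [h.gen]
      exact IntermediateField.mem_top
    have hle : IntermediateField.adjoin k {x, y} ≤
        ((IsScalarTower.toAlgHom k K' (AlgebraicClosure K')).fieldRange).comap φ := by
      rw [IntermediateField.adjoin_le_iff]
      rintro z (hz | hz)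
      · rw [hz]
        exact ⟨X', hφ.symm⟩
      · rw [Set.mem_singleton_iff.mp hz]
        rcases hy with h1 | h1
        · exact ⟨Y', h1.symm⟩
        · exact ⟨-Y', h1.symm⟩
    exact hle hz
  choose j hj using hrange
  have hinj := (algebraMap K' (AlgebraicClosure K')).injective
  let J : K →ₐ[k] K' :=
    { toFun := j
      map_one' := hinj (by rw [hj, map_one, map_one])
      map_mul' := fun u v => hinj (by rw [hj, map_mul, map_mul, hj, hj])
      map_zero' := hinj (by rw [hj, map_zero, map_zero])
      map_add' := fun u v => hinj (by rw [hj, map_add, map_add, hj, hj])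
      commutes' := fun c => hinj (by
        rw [hj, φ.commutes]
        exact IsScalarTower.algebraMap_apply k K' (AlgebraicClosure K') c) }
  refine ⟨J, hinj ?_, ?_⟩
  · exact (hj x).trans hφ
  · rcases hy with h1 | h1
    · exact Or.inl (hinj ((hj y).trans h1))
    · exact Or.inr (hinj ((hj y).trans h1))

theorem psi_harm {x y : K} (h : GPt k a b x y) (hΔ : 4 * a ^ 3 + 27 * b ^ 2 ≠ 0)
    (hns : (sw (algebraMap k K a) (algebraMap k K b)).toAffine.Nonsingular x y) {lam : Place k K → k}
    (hl : Harm h.ff lam) {ψ : EPt a b →+ k} {c : k}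
    (hψ : ∀ v : Place k K, lam v = ψ (redH hΔ (rpl h.ff v) (EPt.mk x y hns)) + c)
    (K' : Type u) [Field K'] [Algebra k K'] (hK' : IsFunctionField k K') (Z' : EK k K' a b) :
    Harm hK' (fun w => ψ (redH hΔ (rpl hK' w) Z')) := by
  rcases Z' with _ | ⟨X', Y', hXY⟩
  · have h1 : (fun w => ψ (redH hΔ (rpl hK' w) (WeierstrassCurve.Affine.Point.zero : EK k K' a b))) = fun _ => 0 := by
      funext w
      have h2 : redH hΔ (rpl hK' w) (WeierstrassCurve.Affine.Point.zero : EK k K' a b) = 0 :=
        (redH hΔ (rpl hK' w)).map_zero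
      rw [h2, map_zero]
    rw [h1]
    exact harm_const hK' 0
  have he' : Y' ^ 2 = X' ^ 3 + algebraMap k K' a * X' + algebraMap k K' b := (sw_nonsingular.mp hXY).1
  by_cases hX : Transcendental k X'
  · obtain ⟨J, hJx, hJy⟩ := h.exists_hom hX he'
    have hrp : ∀ w : Place k K', rpl h.ff (Place.comap h.ff hK' J w) = (rpl hK' w).comap J := by
      intro w
      ext z
      rfl
    have hH : Harm hK' (fun w => lam (Place.comap h.ff hK' J w) - c) :=
      harm_sub (pull_harm hK' J hl) (harm_const hK' c)
    have hval : ∀ w : Place k K', lam (Place.comap h.ff hK' J w) - c =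
        ψ (redH hΔ (rpl hK' w) (mapC J a b (EPt.mk x y hns))) := by
      intro w
      rw [hψ, hrp, redH_map, add_sub_cancel_right]
    have hns' : (sw (algebraMap k K' a) (algebraMap k K' b)).toAffine.Nonsingular (J x) (J y) := by
      haveI : CharZero K' := charZero_of_injective_algebraMap (algebraMap k K').injective
      have h1 : 4 * (algebraMap k K' a) ^ 3 + 27 * (algebraMap k K' b) ^ 2 =
          algebraMap k K' (4 * a ^ 3 + 27 * b ^ 2) := by
        simp only [map_add, map_mul, map_pow, map_ofNat]
      refine nonsing_of_disc (by rw [h1]; exact (_root_.map_ne_zero _).mpr hΔ) ?_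
      rw [← map_pow, h.he, map_add, map_add, map_mul, map_pow, J.commutes, J.commutes]
    rcases hJy with hJy | hJy
    · have e : mapC J a b (EPt.mk x y hns) = EPt.mk X' Y' hXY := by
        rw [mapC_mk J x y hns hns']
        exact some_congr_h11 _ _ hJx hJy
      have e2 : (fun w => ψ (redH hΔ (rpl hK' w) (EPt.mk X' Y' hXY))) =
          fun w => lam (Place.comap h.ff hK' J w) - c := by
        funext w
        rw [hval, e]
      change Harm hK' (fun w => ψ (redH hΔ (rpl hK' w) (EPt.mk X' Y' hXY)))
      rw [e2]
      exact hH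
    · have e : mapC J a b (EPt.mk x y hns) = -EPt.mk X' Y' hXY := by
        rw [mapC_mk J x y hns hns']
        have e3 : (sw (algebraMap k K' a) (algebraMap k K' b)).toAffine.negY X' Y' = -Y' := by
          simp [WeierstrassCurve.Affine.negY]
        exact some_congr_h11 _ _ hJx (hJy.trans e3.symm)
      have e2 : (fun w => ψ (redH hΔ (rpl hK' w) (EPt.mk X' Y' hXY))) =
          fun w => (-1) * (lam (Place.comap h.ff hK' J w) - c) := by
        funext w
        rw [hval, e, map_neg, map_neg]
        ring
      change Harm hK' (fun w => ψ (redH hΔ (rpl hK' w) (EPt.mk X' Y' hXY)))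
      rw [e2]
      exact harm_smul hH _
  · have hX' : IsAlgebraic k X' := not_not.mp hX
    obtain ⟨X, hX1⟩ := minpoly.mem_range_of_degree_eq_one k X'
      (IsAlgClosed.degree_eq_one_of_irreducible k (minpoly.irreducible hX'.isIntegral))
    have hY' : IsAlgebraic k Y' := by
      refine (IsIntegral.of_pow (n := 2) two_pos ?_).isAlgebraic
      rw [he', ← hX1, ← map_pow, ← map_mul, ← map_add, ← map_add]
      exact isIntegral_algebraMap
    obtain ⟨Y, hY1⟩ := minpoly.mem_range_of_degree_eq_one k Y'
      (IsAlgClosed.degree_eq_one_of_irreducible k (minpoly.irreducible hY'.isIntegral))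
    subst hX1 hY1
    have hns0 : (sw a b).toAffine.Nonsingular X Y := by
      refine nonsing_of_disc hΔ ((algebraMap k K').injective ?_)
      rw [map_pow, he', map_add, map_add, map_mul, map_pow]
    have e2 : (fun w => ψ (redH hΔ (rpl hK' w) (EPt.mk (algebraMap k K' X) (algebraMap k K' Y) hXY))) =
        fun _ => ψ (EPt.mk X Y hns0) := by
      funext w
      have h1 := redH_cst hΔ (rpl hK' w) (EPt.mk X Y hns0)
      exact congrArg ψ h1
    change Harm hK' (fun w => ψ (redH hΔ (rpl hK' w) (EPt.mk (algebraMap k K' X) (algebraMap k K' Y) hXY)))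
    rw [e2]
    exact harm_const hK' _

/-- A harmonic function on an elliptic curve as an additive function on points. -/
theorem exists_psi_all {x y : K} (h : GPt k a b x y) (hΔ : 4 * a ^ 3 + 27 * b ^ 2 ≠ 0)
    (hns : (sw (algebraMap k K a) (algebraMap k K b)).toAffine.Nonsingular x y) {lam : Place k K → k}
    (hl : Harm h.ff lam) : ∃ (ψ : EPt a b →+ k) (c : k),
      (∀ (N : Type u) [Field N] [Algebra k N] (j : K →ₐ[k] N) (w : RPl k N),
        lam (w.pl h.ff j) = ψ (redH hΔ w (mapC j a b (EPt.mk x y hns))) + c) ∧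
      ∀ (K' : Type u) [Field K'] [Algebra k K'] (hK' : IsFunctionField k K') (Z' : EK k K' a b),
        Harm hK' (fun w => ψ (redH hΔ (rpl hK' w) Z')) := by
  obtain ⟨ψ, c, hψ⟩ := exists_psiE h hΔ hns hl
  refine ⟨ψ, c, fun N _ _ j w => ?_, psi_harm h hΔ hns hl hψ⟩
  rw [hψ, rpl_pl, redH_map]

end Pool.Agent.Helper70.KX
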