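import Mathlib
import Pool.Agent.Helper9.NS
import Pool.Agent.Helper70.KX.EHarm
import Pool.Agent.Helper70.KX.Ind
import Pool.Agent.Helper17.FF.Homog
import Pool.Agent.Helper15.KP.StepB

/-!
# KX: step A for an elliptic surface which is a product
-/

set_option linter.unusedSectionVars false

namespace Pool.Agent.Helper70.KX

open VC _root_.VF Function Polynomial
open Pool.Agent.Helper21.TO Pool.Agent.Helper21.TB Pool.Agent.Helper21.TZ Pool.Agent.Helper15.GT Pool.Agent.Helper15.KP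
open Pool.Agent.Helper51.VN (Harm)

universe u

variable {k : Type u} [Field k] [IsAlgClosed k] [CharZero k] {a b : k}

lemma disc_map (hΔ : 4 * a ^ 3 + 27 * b ^ 2 ≠ 0) (K : Type u) [Field K] [Algebra k K] :
    4 * (algebraMap k K a) ^ 3 + 27 * (algebraMap k K b) ^ 2 ≠ 0 := by
  have h1 : 4 * (algebraMap k K a) ^ 3 + 27 * (algebraMap k K b) ^ 2 =
      algebraMap k K (4 * a ^ 3 + 27 * b ^ 2) := by
    simp only [map_add, map_mul, map_pow, map_ofNat]
  rw [h1]
  exact (_root_.map_ne_zero _).mpr hΔ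

/-- Points with invariant coordinates. -/
theorem desc_point {F N : Type u} [Field F] [Algebra k F] [Field N] [Algebra k N]
    (hΔ : 4 * a ^ 3 + 27 * b ^ 2 ≠ 0) (H : Set (N ≃ₐ[k] N)) (e : F →ₐ[k] N)
    (he : ∀ z : N, (∀ σ ∈ H, σ z = z) → z ∈ Set.range e) (Z : EK k N a b)
    (hZ : ∀ σ ∈ H, mapC ((σ : N ≃ₐ[k] N) : N →ₐ[k] N) a b Z = Z) : ∃ Z₀ : EK k F a b, mapC e a b Z₀ = Z := by
  rcases Z with _ | ⟨x, y, hxy⟩
  · exact ⟨0, map_zero _⟩
  · have hσ : ∀ σ ∈ H, σ x = x ∧ σ y = y := by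
      intro σ hσ
      have h1 := hZ σ hσ
      constructor
      · injection h1
      · injection h1
    obtain ⟨x₀, rfl⟩ := he x fun σ h => (hσ σ h).1
    obtain ⟨y₀, rfl⟩ := he y fun σ h => (hσ σ h).2
    haveI : CharZero F := charZero_of_injective_algebraMap (algebraMap k F).injective
    have hns : (sw (algebraMap k F a) (algebraMap k F b)).toAffine.Nonsingular x₀ y₀ := by
      refine nonsing_of_disc (disc_map hΔ F) (e.toRingHom.injective ?_)
      change e (y₀ ^ 2) = e (x₀ ^ 3 + algebraMap k F a * x₀ + algebraMap k F b)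
      rw [map_pow, map_add, map_add, map_mul, map_pow, e.commutes, e.commutes]
      exact (sw_nonsingular.mp hxy).1
    exact ⟨EPt.mk x₀ y₀ hns, rfl⟩

lemma adj_top2 {L : Type u} [Field L] [Algebra k L] (x y : L)
    (hx : x ∈ IntermediateField.adjoin k {x, y}) (hy : y ∈ IntermediateField.adjoin k {x, y}) :
    IntermediateField.adjoin k {(⟨x, hx⟩ : IntermediateField.adjoin k {x, y}), ⟨y, hy⟩} = ⊤ := by
  apply IntermediateField.map_injective (IntermediateField.val (IntermediateField.adjoin k {x, y}))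
  rw [IntermediateField.adjoin_map, Set.image_insert_eq, Set.image_singleton,
    ← AlgHom.fieldRange_eq_map, IntermediateField.fieldRange_val]
  rfl

/-- The ruled surface `k (x, y, l)`: all harmonic functions come from the curve. -/
theorem ruled_E {Ω : Type u} [Field Ω] [Algebra k Ω] (hΔ : 4 * a ^ 3 + 27 * b ^ 2 ≠ 0) (l X0 Y0 : Ω)
    (hind : AlgebraicIndependent k ![l, X0])
    (he : Y0 ^ 2 = X0 ^ 3 + algebraMap k Ω a * X0 + algebraMap k Ω b)
    (hns : (sw (algebraMap k Ω a) (algebraMap k Ω b)).toAffine.Nonsingular X0 Y0)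
    {E : IntermediateField k Ω} (hE : E = IntermediateField.adjoin k {l, X0, Y0}) {u : RPl k E → k} (hu : HF k E u) :
    ∃ (ψ : EPt a b →+ k) (c : k), (∀ w : RPl k Ω, u (w.comap E.val) = ψ (redH hΔ w (EPt.mk X0 Y0 hns)) + c) ∧
      ∀ (K' : Type u) [Field K'] [Algebra k K'] (hK' : IsFunctionField k K') (Z' : EK k K' a b),
        Harm hK' (fun w => ψ (redH hΔ (rpl hK' w) Z')) := by
  let K := IntermediateField.adjoin k {X0, Y0}
  have hX : X0 ∈ K := IntermediateField.subset_adjoin k _ (Or.inl rfl)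
  have hY : Y0 ∈ K := IntermediateField.subset_adjoin k _ (Or.inr rfl)
  have hXt : Transcendental k X0 := by
    have h1 := hind.transcendental 1
    exact h1
  have hG : GPt k a b (⟨X0, hX⟩ : K) ⟨Y0, hY⟩ := by
    refine ⟨fun h1 => hXt (h1.algebraMap (A := Ω)), Subtype.ext he, adj_top2 X0 Y0 hX hY⟩
  have hKE : K ≤ E := by
    rw [hE, IntermediateField.adjoin_le_iff]
    rintro z (hz | hz)
    · exact IntermediateField.subset_adjoin k _ (Or.inr (Or.inl hz))
    · exact IntermediateField.subset_adjoin k _ (Or.inr (Or.inr hz))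
  have hlE : l ∈ E := by
    rw [hE]
    exact IntermediateField.subset_adjoin k _ (Or.inl rfl)
  let j : K →ₐ[k] E := IntermediateField.inclusion hKE
  have hjv : E.val.comp j = K.val := by
    ext z
    rfl
  -- `l` is transcendental over `K`
  have hlK : Transcendental K l := by
    intro hal
    have hind' : AlgebraicIndependent k ![X0, l] := by
      have h1 := hind.comp (![1, 0] : Fin 2 → Fin 2) (by decide)
      have h2 : (![l, X0] ∘ ![1, 0]) = ![X0, l] := by
        funext i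
        fin_cases i <;> rfl
      rw [h2] at h1
      exact h1
    let K₀ := IntermediateField.adjoin k {X0}
    have hX₀ : X0 ∈ K₀ := IntermediateField.mem_adjoin_simple_self k _
    have hint : IsIntegral K₀ Y0 := by
      refine IsIntegral.of_pow (n := 2) two_pos ?_
      rw [he]
      exact isIntegral_algebraMap (x := (⟨X0 ^ 3 + algebraMap k Ω a * X0 + algebraMap k Ω b,
        add_mem (add_mem (pow_mem hX₀ 3) (mul_mem (K₀.algebraMap_mem a) hX₀)) (K₀.algebraMap_mem b)⟩ : K₀))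
    let K₁ := IntermediateField.adjoin K₀ {Y0}
    haveI : FiniteDimensional K₀ K₁ := IntermediateField.adjoin.finiteDimensional hint
    haveI : Algebra.IsAlgebraic K₀ K₁ := Algebra.IsAlgebraic.of_finite K₀ K₁
    have hle : K ≤ K₁.restrictScalars k := by
      rw [IntermediateField.adjoin_le_iff]
      rintro z (hz | hz)
      · rw [hz]
        exact K₁.algebraMap_mem ⟨X0, hX₀⟩
      · rw [Set.mem_singleton_iff.mp hz]
        exact IntermediateField.mem_adjoin_simple_self K₀ Y0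
    have h1 : IsAlgebraic K₁ l := FF.isAlgebraic_mono hle hal
    exact ind_snd hind' (h1.restrictScalars K₀)
  have hltop : ∀ z ∈ E, z ∈ IntermediateField.adjoin K {l} := by
    intro z hz
    have hle : E ≤ (IntermediateField.adjoin K {l}).restrictScalars k := by
      rw [hE, IntermediateField.adjoin_le_iff]
      rintro z (hz | hz | hz)
      · rw [hz]
        exact IntermediateField.mem_adjoin_simple_self K l
      · rw [hz]
        exact (IntermediateField.adjoin K {l}).algebraMap_mem ⟨X0, hX⟩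
      · rw [Set.mem_singleton_iff.mp hz]
        exact (IntermediateField.adjoin K {l}).algebraMap_mem ⟨Y0, hY⟩
    exact hle hz
  have hev : ∀ p : K[X], ((p.eval₂ (j : K →+* E) ⟨l, hlE⟩ : E) : Ω) = aeval l p := by
    intro p
    rw [aeval_def]
    exact hom_eval₂ p (j : K →+* E) (algebraMap E Ω) ⟨l, hlE⟩
  obtain ⟨lam, hlam, hul⟩ := HF.ruled hG.ff j ⟨l, hlE⟩ (fun p hp => by
    by_contra hp0
    refine hlK ⟨p, hp0, ?_⟩
    rw [← hev, hp]
    rfl) (fun y => by
    obtain ⟨r, q, hrq⟩ := (IntermediateField.mem_adjoin_simple_iff K (y : Ω)).mp (hltop y y.2)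
    by_cases hq0 : aeval l q = 0
    · refine ⟨0, 1, ?_, ?_⟩
      · rw [eval₂_one]
        exact one_ne_zero
      · rw [eval₂_one, eval₂_zero, mul_one]
        apply Subtype.ext
        rw [hrq, hq0, div_zero]
        rfl
    · refine ⟨r, q, ?_, ?_⟩
      · intro h0
        apply hq0
        rw [← hev, h0]
        rfl
      · apply Subtype.ext
        change (y : Ω) * ((q.eval₂ (j : K →+* E) ⟨l, hlE⟩ : E) : Ω) = ((r.eval₂ (j : K →+* E) ⟨l, hlE⟩ : E) : Ω)
        rw [hev, hev, hrq]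
        exact div_mul_cancel₀ _ hq0) hu
  have hnsK : (sw (algebraMap k K a) (algebraMap k K b)).toAffine.Nonsingular (⟨X0, hX⟩ : K) ⟨Y0, hY⟩ := by
    haveI : CharZero K := charZero_of_injective_algebraMap (algebraMap k K).injective
    exact nonsing_of_disc (disc_map hΔ K) hG.he
  obtain ⟨ψ, c, hψ, hψH⟩ := exists_psi_all hG hΔ hnsK hlam
  refine ⟨ψ, c, fun w => ?_, hψH⟩
  rw [hul, pl_comap, hjv, hψ Ω K.val w]
  rfl

/-- Step A, one slot, if the elliptic surface is a product. -/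
theorem stepT1 {F : Type u} [Field F] [Algebra k F] {ι : F ≃ₐ[k] F} {P Q : k[X]} {Ω : Type u} [Field Ω] [Algebra k Ω]
    {G Γ : Type u} [Group G] [Fintype G] [Group Γ] [Fintype Γ] (A : A1G ι P Q Ω G Γ) (α β : k) (U : k[X]) (hU : U ≠ 0)
    (hP : P = C α * U ^ 4) (hQ : Q = C β * U ^ 6) (hΔ : 4 * α ^ 3 + 27 * β ^ 2 ≠ 0) :
    ∃ Z : EK k F α β, ∀ u : RPl k F → k, HF k F u →
      ∃ (ψ : EPt α β →+ k) (C : k),
        (∀ (K' : Type u) [Field K'] [Algebra k K'] (hK' : IsFunctionField k K') (Z' : EK k K' α β),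
          Harm hK' (fun w => ψ (redH hΔ (rpl hK' w) Z'))) ∧
        ∀ v : RPl k F, (Fintype.card G : k) * ((A.np : k) * u v -
          (A.nm : k) * u (v.comap ((ι : F ≃ₐ[k] F) : F →ₐ[k] F))) = ψ (redH hΔ v Z) + C := by
  classical
  haveI : CharZero Ω := charZero_of_injective_algebraMap (algebraMap k Ω).injective
  have hl : Transcendental k A.l := ind_fst A.ind
  obtain ⟨v, hv⟩ : ∃ v, v = aeval A.l U := ⟨_, rfl⟩
  have hv0 : v ≠ 0 := by
    rw [hv]
    exact fun h => hl ⟨U, hU, h⟩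
  have hvl : v ∈ IntermediateField.adjoin k {A.l} := by
    rw [hv]
    exact (IntermediateField.algebra_adjoin_le_adjoin k {A.l}) (aeval_mem_adjoin_singleton k A.l)
  have he : (A.y / v ^ 3) ^ 2 = (A.x / v ^ 2) ^ 3 + algebraMap k Ω α * (A.x / v ^ 2) +
      algebraMap k Ω β := by
    have h1 : A.y ^ 2 = A.x ^ 3 + algebraMap k Ω α * v ^ 4 * A.x + algebraMap k Ω β * v ^ 6 := by
      have e1 : aeval A.l P = algebraMap k Ω α * v ^ 4 := by
        have h2 := congrArg (aeval A.l) hP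
        rw [h2, map_mul, map_pow, aeval_C, hv]
      have e2 : aeval A.l Q = algebraMap k Ω β * v ^ 6 := by
        have h2 := congrArg (aeval A.l) hQ
        rw [h2, map_mul, map_pow, aeval_C, hv]
      have h3 := A.eqn
      rw [e1, e2] at h3
      exact h3
    field_simp
    linear_combination h1
  have hind : AlgebraicIndependent k ![A.l, A.x / v ^ 2] := by
    refine ind_of hl ?_
    intro h
    apply ind_snd A.ind
    have h2 : A.x = A.x / v ^ 2 * v ^ 2 := by field_simp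
    rw [h2]
    refine h.mul (IsAlgebraic.pow ?_ 2)
    exact isAlgebraic_algebraMap (⟨v, hvl⟩ : IntermediateField.adjoin k {A.l})
  have hE : IntermediateField.adjoin k {A.l, A.x, A.y} = IntermediateField.adjoin k {A.l, A.x / v ^ 2, A.y / v ^ 3} := by
    have hvm : ∀ L : IntermediateField k Ω, A.l ∈ L → v ∈ L := by
      intro L hL
      have h1 : IntermediateField.adjoin k {A.l} ≤ L := by
        rw [IntermediateField.adjoin_simple_le_iff]
        exact hL
      exact h1 hvl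
    apply le_antisymm
    · rw [IntermediateField.adjoin_le_iff]
      have hl1 : A.l ∈ IntermediateField.adjoin k {A.l, A.x / v ^ 2, A.y / v ^ 3} :=
        IntermediateField.subset_adjoin k _ (Or.inl rfl)
      have hv2 := hvm _ hl1
      rintro z (hz | hz | hz)
      · rw [hz]
        exact hl1
      · rw [hz]
        have h1 : A.x / v ^ 2 ∈ IntermediateField.adjoin k {A.l, A.x / v ^ 2, A.y / v ^ 3} :=
          IntermediateField.subset_adjoin k _ (Or.inr (Or.inl rfl))
        have h2 := mul_mem h1 (pow_mem hv2 2)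
        rwa [div_mul_cancel₀ _ (pow_ne_zero 2 hv0)] at h2
      · rw [Set.mem_singleton_iff.mp hz]
        have h1 : A.y / v ^ 3 ∈ IntermediateField.adjoin k {A.l, A.x / v ^ 2, A.y / v ^ 3} :=
          IntermediateField.subset_adjoin k _ (Or.inr (Or.inr rfl))
        have h2 := mul_mem h1 (pow_mem hv2 3)
        rwa [div_mul_cancel₀ _ (pow_ne_zero 3 hv0)] at h2
    · rw [IntermediateField.adjoin_le_iff]
      have hl1 : A.l ∈ IntermediateField.adjoin k {A.l, A.x, A.y} :=
        IntermediateField.subset_adjoin k _ (Or.inl rfl)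
      have hv2 := hvm _ hl1
      rintro z (hz | hz | hz)
      · rw [hz]
        exact hl1
      · rw [hz]
        exact div_mem (IntermediateField.subset_adjoin k _ (Or.inr (Or.inl rfl))) (pow_mem hv2 2)
      · rw [Set.mem_singleton_iff.mp hz]
        exact div_mem (IntermediateField.subset_adjoin k _ (Or.inr (Or.inr rfl))) (pow_mem hv2 3)
  have hns : (sw (algebraMap k Ω α) (algebraMap k Ω β)).toAffine.Nonsingular (A.x / v ^ 2)
      (A.y / v ^ 3) := nonsing_of_disc (disc_map hΔ Ω) he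
  obtain ⟨ZΩ, hZΩ⟩ : ∃ ZΩ : EK k Ω α β, ZΩ = EPt.mk (A.x / v ^ 2) (A.y / v ^ 3) hns := ⟨_, rfl⟩
  obtain ⟨Z, hZ⟩ := desc_point hΔ (Set.range A.ρ) A.e (fun z hz => A.fixF z fun g => hz _ ⟨g, rfl⟩)
    (∑ h, mapC ((A.ρ h : Ω ≃ₐ[k] Ω) : Ω →ₐ[k] Ω) α β ZΩ) (by
      rintro σ ⟨g, rfl⟩
      have h1 := Equiv.sum_comp (Equiv.mulLeft g)
        (fun h => mapC ((A.ρ h : Ω ≃ₐ[k] Ω) : Ω →ₐ[k] Ω) α β ZΩ)
      rw [map_sum]
      refine Eq.trans (Finset.sum_congr rfl fun h _ => ?_) h1
      beta_reduce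
      rw [mapC_comp]
      have h2 : ((A.ρ g : Ω ≃ₐ[k] Ω) : Ω →ₐ[k] Ω).comp ((A.ρ h : Ω ≃ₐ[k] Ω) : Ω →ₐ[k] Ω) =
          ((A.ρ (Equiv.mulLeft g h) : Ω ≃ₐ[k] Ω) : Ω →ₐ[k] Ω) := by
        ext z
        change A.ρ g (A.ρ h z) = A.ρ (g * h) z
        rw [map_mul]
        rfl
      rw [h2])
  refine ⟨Z, fun u hu => ?_⟩
  obtain ⟨u', hu', h1⟩ := HF.trace A.ρ' (IntermediateField.val (IntermediateField.adjoin k {A.l, A.x, A.y}))
    (fun z hz => ⟨⟨z, (A.fixE z).mp hz⟩, rfl⟩) (HF.comap A.e hu)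
  obtain ⟨ψ, c, hψ, hψH⟩ := ruled_E hΔ A.l (A.x / v ^ 2) (A.y / v ^ 3) hind he hns hE hu'
  obtain ⟨C, hC⟩ := A.main u hu
  refine ⟨ψ, (Fintype.card G : k) * c - C, hψH, fun v' => ?_⟩
  obtain ⟨w, rfl⟩ := exists_lift A.e v'
  have h2 := hC w
  have h3 : ∑ h : G, ∑ g : Γ, u (((w.comap ((A.ρ h : Ω ≃ₐ[k] Ω) : Ω →ₐ[k] Ω)).comap
      ((A.ρ' g : Ω ≃ₐ[k] Ω) : Ω →ₐ[k] Ω)).comap A.e) =
      ∑ h : G, (ψ (redH hΔ w (mapC ((A.ρ h : Ω ≃ₐ[k] Ω) : Ω →ₐ[k] Ω) α β ZΩ)) + c) := by
    refine Finset.sum_congr rfl fun h _ => ?_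
    rw [← h1 (w.comap ((A.ρ h : Ω ≃ₐ[k] Ω) : Ω →ₐ[k] Ω)), hψ, redH_map, ← hZΩ]
  rw [h3, Finset.sum_add_distrib, ← map_sum, ← map_sum, ← hZ, redH_map, Finset.sum_const, Finset.card_univ,
    nsmul_eq_mul] at h2
  linear_combination -h2

end Pool.Agent.Helper70.KX
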