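import Mathlib
import Pool.Agent.Helper9.NS
import Pool.Agent.Helper70.KX.StepT1
import Pool.Agent.Helper70.KX.Line
import Pool.Agent.Helper15.GT.Ruled2

/-!
# KX: the case of a product
-/

set_option linter.unusedSectionVars false

namespace Pool.Agent.Helper70.KX

open VC _root_.VF Function Polynomial
open Pool.Agent.Helper21.TO Pool.Agent.Helper21.TB Pool.Agent.Helper21.TZ Pool.Agent.Helper15.GT Pool.Agent.Helper15.KP
open Pool.Agent.Helper51.VN (Harm)

universe u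

variable {k : Type u} [Field k] [IsAlgClosed k] [CharZero k] {a b : k}

/-- If all harmonic functions are constant then all cycles of degree zero are torsion. -/
theorem vp_of_const {F : Type u} [Field F] [Algebra k F]
    (h : ∀ u : RPl k F → k, HF k F u → ∃ C, ∀ w, u w = C) : VP k F 0 := by
  classical
  intro M ξ hξ n hn b hb
  have hnul : ∀ i, Nul (proj k (van k ξ)) (b i) := by
    intro i φ hφ
    obtain ⟨C, hC⟩ := h (fun w => φ (evP ξ hξ w)) ⟨M, ξ, hξ, φ, hφ, fun w => rfl⟩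
    have hc : φ = fun _ => C := by
      funext p
      obtain ⟨w, rfl⟩ := exists_rpl_evP (k := k) ξ hξ p
      exact hC w
    rw [hc, Finsupp.linearCombination_apply]
    have h1 : ((b i).sum fun _ m => m • C) = ((b i).sum fun _ m => m) • C := by
      rw [Finsupp.sum, Finsupp.sum, Finset.sum_smul]
    rw [h1, hb i, zero_smul]
  refine separation _ _ fun Φ hΦ => ?_
  rw [map_sum]
  refine Finset.sum_eq_zero fun σ _ => ?_
  rw [map_smul, ext_congr (fun K _ _ hK p => pconst K hK p) hΦ (fun i => b (σ i)) (fun _ => 0)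
    (fun i => by rw [sub_zero]; exact hnul _)]
  have h3 : extProd (fun _ : Fin n => (0 : (proj k (van k ξ)).Cycles)) = 0 := by
    exact (extM (proj k (van k ξ)).Pt n).map_coord_zero ⟨0, hn⟩ rfl
  rw [h3, map_zero, smul_zero]

/-- On a regular surface an additive function of a point of a constant elliptic curve is constant. -/
theorem reg_const {F : Type u} [Field F] [Algebra k F] (hΔ : 4 * a ^ 3 + 27 * b ^ 2 ≠ 0) (hq : Reg k F)
    (Z : EK k F a b) {ψ : EPt a b →+ k}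
    (hψ : ∀ (K' : Type u) [Field K'] [Algebra k K'] (hK' : IsFunctionField k K') (Z' : EK k K' a b),
      Harm hK' (fun w => ψ (redH hΔ (rpl hK' w) Z'))) : ∃ C, ∀ w : RPl k F, ψ (redH hΔ w Z) = C := by
  by_cases hne : Nonempty (RPl k F)
  · obtain ⟨w₀⟩ := hne
    by_cases htr : ∃ x : F, Transcendental k x
    · obtain ⟨x, hx⟩ := htr
      obtain ⟨K1, _, _, hK1, j, l, hl, hw⟩ := exists_lred (K := IntermediateField.adjoin k {x})
        (line_ff (trans_gen hx) (adjoin_gen_top x)) (IntermediateField.val _) hΔ Z ψ hψ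
      refine ⟨ψ (redH hΔ w₀ Z), fun w => ?_⟩
      rw [hw, hw]
      exact harm_rat hK1 (hq K1 hK1 j) hl _ _
    · push Not at htr
      have hsurj : ∀ x : F, ∃ c : k, algebraMap k F c = x := fun x =>
        minpoly.mem_range_of_degree_eq_one k x
          (IsAlgClosed.degree_eq_one_of_irreducible k (minpoly.irreducible
            (show IsAlgebraic k x from not_not.mp (htr x)).isIntegral))
      refine ⟨ψ (redH hΔ w₀ Z), fun w => ?_⟩
      have hw : w = w₀ := by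
        ext z
        obtain ⟨c, rfl⟩ := hsurj z
        exact ⟨fun _ => w₀.alg c, fun _ => w.alg c⟩
      rw [hw]
  · exact ⟨0, fun w => (hne ⟨w⟩).elim⟩

lemma mapC_fix {F N : Type u} [Field F] [Algebra k F] [Field N] [Algebra k N] (e : F →ₐ[k] N) (σ : N ≃ₐ[k] N)
    (h : ∀ z, σ (e z) = e z) (Z : EK k F a b) :
    mapC ((σ : N ≃ₐ[k] N) : N →ₐ[k] N) a b (mapC e a b Z) = mapC e a b Z := by
  rw [mapC_comp]
  have h1 : ((σ : N ≃ₐ[k] N) : N →ₐ[k] N).comp e = e := by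
    ext z
    exact h z
  rw [h1]

lemma mapC_mul {N G : Type u} [Field N] [Algebra k N] [Group G] (ρ : G →* (N ≃ₐ[k] N)) (g h : G) (Z : EK k N a b) :
    mapC ((ρ g : N ≃ₐ[k] N) : N →ₐ[k] N) a b (mapC ((ρ h : N ≃ₐ[k] N) : N →ₐ[k] N) a b Z) =
      mapC ((ρ (g * h) : N ≃ₐ[k] N) : N →ₐ[k] N) a b Z := by
  rw [mapC_comp]
  have h1 : ((ρ g : N ≃ₐ[k] N) : N →ₐ[k] N).comp ((ρ h : N ≃ₐ[k] N) : N →ₐ[k] N) =
      ((ρ (g * h) : N ≃ₐ[k] N) : N →ₐ[k] N) := by
    ext z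
    change ρ g (ρ h z) = ρ (g * h) z
    rw [map_mul]
    rfl
  rw [h1]

section

variable {F N F6 G : Type u} [Field F] [Algebra k F] [Field N] [Algebra k N] [Field F6] [Algebra k F6]
  [Group G] [Fintype G] {ι : F6 ≃ₐ[k] F6}

/-- The stabilizer of the pair `0, 1`. -/
def Stb (D : QG k F N F6 G ι) (g : G) : Prop :=
  (D.act g 0 = 0 ∧ D.act g 1 = 1) ∨ (D.act g 0 = 1 ∧ D.act g 1 = 0)

lemma gj_spec (D : QG k F N F6 G ι) {j : Fin 4} (hc : D.Cj j) :
    (D.act (D.gj j) 0 = 0 ∧ D.act (D.gj j) 1 = j) ∨ (D.act (D.gj j) 0 = j ∧ D.act (D.gj j) 1 = 0) := by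
  rw [QG.gj, dif_pos hc]
  exact hc.2.choose_spec

/-- The sum of the harmonic function over the pair. -/
lemma exists_u6 (D : QG k F N F6 G ι) {u : RPl k F → k} (hu : HF k F u) :
    ∃ u6 : RPl k F6 → k, HF k F6 u6 ∧ ∀ w : RPl k N, u6 (w.comap D.e6) = u (w.comap (D.e 0)) + u (w.comap (D.e 1)) := by
  classical
  let f : ULift.{u} (Fin 2) → F →ₐ[k] N := fun i => D.e (if i.down = 0 then 0 else 1)
  have hf : ∀ w : RPl k N, ∑ j, u (w.comap (f j)) = u (w.comap (D.e 0)) + u (w.comap (D.e 1)) := by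
    intro w
    rw [← Equiv.sum_comp Equiv.ulift.symm, Fin.sum_univ_two]
    rfl
  obtain ⟨u6, h1, h2⟩ := HF.fam f D.e6 {σ | ∃ g, ((D.act g 0 = 0 ∧ D.act g 1 = 1) ∨ (D.act g 0 = 1 ∧ D.act g 1 = 0)) ∧
    σ = D.ρ g} (fun z hz => (D.fix6 z).mp fun g hg => hz _ ⟨g, hg, rfl⟩) (by
    rintro σ ⟨g, hg, rfl⟩
    rcases hg with ⟨h0, h1⟩ | ⟨h0, h1⟩
    · refine ⟨Equiv.refl _, fun j x => ?_⟩
      rcases j with ⟨j⟩
      fin_cases j
      · exact (D.hact g 0 x).trans (by rw [h0]; rfl)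
      · exact (D.hact g 1 x).trans (by rw [h1]; rfl)
    · refine ⟨Equiv.ulift.trans ((Equiv.swap 0 1).trans Equiv.ulift.symm), fun j x => ?_⟩
      rcases j with ⟨j⟩
      fin_cases j
      · exact (D.hact g 0 x).trans (by rw [h0]; rfl)
      · exact (D.hact g 1 x).trans (by rw [h1]; rfl)) hu
  exact ⟨u6, h1, fun w => by rw [h2, hf]⟩

/-- The product case. -/
theorem stepT_G (D : QG k F N F6 G ι) {P Q : k[X]} {Ω : Type u} [Field Ω] [Algebra k Ω] {G' Γ : Type u} [Group G']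
    [Fintype G'] [Group Γ] [Fintype Γ] (A : A1G ι P Q Ω G' Γ)
    (hrat : ∀ u : RPl k (IntermediateField.adjoin k {D.s, D.t}) → k, HF k _ u → ∀ w w', u w = u w')
    (hq : Reg k F) (α β : k) (U : k[X]) (hU : U ≠ 0) (hP : P = C α * U ^ 4) (hQ : Q = C β * U ^ 6)
    (hd : 4 * P ^ 3 + 27 * Q ^ 2 ≠ 0) : VP k F 0 := by
  classical
  have hΔ : 4 * α ^ 3 + 27 * β ^ 2 ≠ 0 := by
    intro h0
    apply hd
    have h2 : (4 : k[X]) * C α ^ 3 + 27 * C β ^ 2 = 0 := by
      have h1 := congrArg (C : k →+* k[X]) h0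
      simp only [map_add, map_mul, map_pow, map_zero, map_ofNat] at h1
      exact h1
    rw [hP, hQ]
    linear_combination U ^ 12 * h2
  obtain ⟨Z6, hZ6⟩ := stepT1 A α β U hU hP hQ hΔ
  obtain ⟨Z01, hZ01⟩ : ∃ Z01, Z01 = mapC D.e6 α β Z6 := ⟨_, rfl⟩
  have hfixZ : ∀ g, Stb D g → mapC ((D.ρ g : N ≃ₐ[k] N) : N →ₐ[k] N) α β Z01 = Z01 := by
    intro g hg
    rw [hZ01]
    refine mapC_fix D.e6 (D.ρ g) (fun z => ?_) Z6
    exact (D.fix6 (D.e6 z)).mpr ⟨z, rfl⟩ g hg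
  -- the point of the curve over `F`
  obtain ⟨R, hR⟩ : ∃ R : EK k N α β, R = ∑ j : Fin 4, if D.Cj j then
      mapC ((D.ρ (D.gj j) : N ≃ₐ[k] N) : N →ₐ[k] N) α β Z01 else 0 := ⟨_, rfl⟩
  have hRfix : ∀ g, D.act g 0 = 0 → mapC ((D.ρ g : N ≃ₐ[k] N) : N →ₐ[k] N) α β R = R := by
    intro g hg
    have hCj : ∀ j, D.Cj j → D.Cj (D.act g j) := by
      rintro j ⟨hj0, h, hh⟩
      refine ⟨fun h0 => hj0 ?_, g * h, ?_⟩
      · apply (D.act g).injective
        rw [h0, hg]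
      · rcases hh with ⟨h0, h1⟩ | ⟨h0, h1⟩
        · left
          rw [map_mul, Equiv.Perm.mul_apply, Equiv.Perm.mul_apply, h0, h1]
          exact ⟨hg, rfl⟩
        · right
          rw [map_mul, Equiv.Perm.mul_apply, Equiv.Perm.mul_apply, h0, h1]
          exact ⟨rfl, hg⟩
    have hCj' : ∀ j, D.Cj (D.act g j) → D.Cj j := by
      rintro j ⟨hj0, h, hh⟩
      refine ⟨fun h0 => hj0 ?_, g⁻¹ * h, ?_⟩
      · rw [h0, hg]
      · have hg' : D.act g⁻¹ 0 = 0 := by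
          rw [map_inv, Equiv.Perm.inv_eq_iff_eq]
          exact hg.symm
        have hgj' : D.act g⁻¹ (D.act g j) = j := by
          rw [map_inv, Equiv.Perm.inv_eq_iff_eq]
        rcases hh with ⟨h0, h1⟩ | ⟨h0, h1⟩
        · left
          rw [map_mul, Equiv.Perm.mul_apply, Equiv.Perm.mul_apply, h0, h1]
          exact ⟨hg', hgj'⟩
        · right
          rw [map_mul, Equiv.Perm.mul_apply, Equiv.Perm.mul_apply, h0, h1]
          exact ⟨hgj', hg'⟩
    have h1 := Equiv.sum_comp (D.act g) (fun j : Fin 4 => if D.Cj j then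
      mapC ((D.ρ (D.gj j) : N ≃ₐ[k] N) : N →ₐ[k] N) α β Z01 else 0)
    rw [hR, map_sum]
    refine Eq.trans (Finset.sum_congr rfl fun j _ => ?_) h1
    by_cases hj : D.Cj j
    · have hj' := hCj j hj
      rw [if_pos hj, if_pos hj', mapC_mul]
      -- the two elements differ by the stabilizer
      have hst : Stb D ((D.gj (D.act g j))⁻¹ * (g * D.gj j)) := by
        have h2 := gj_spec D hj
        have h3 := gj_spec D hj'
        have hinv : ∀ i i', D.act (D.gj (D.act g j)) i = i' → D.act (D.gj (D.act g j))⁻¹ i' = i := by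
          intro i i' h4
          rw [map_inv, Equiv.Perm.inv_eq_iff_eq]
          exact h4.symm
        unfold Stb
        rw [map_mul, map_mul, Equiv.Perm.mul_apply, Equiv.Perm.mul_apply, Equiv.Perm.mul_apply,
          Equiv.Perm.mul_apply]
        rcases h2 with ⟨h20, h21⟩ | ⟨h20, h21⟩
        · rw [h20, h21, hg]
          rcases h3 with ⟨h30, h31⟩ | ⟨h30, h31⟩
          · exact Or.inl ⟨hinv _ _ h30, hinv _ _ h31⟩
          · exact Or.inr ⟨hinv _ _ h31, hinv _ _ h30⟩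
        · rw [h20, h21, hg]
          rcases h3 with ⟨h30, h31⟩ | ⟨h30, h31⟩
          · exact Or.inr ⟨hinv _ _ h31, hinv _ _ h30⟩
          · exact Or.inl ⟨hinv _ _ h30, hinv _ _ h31⟩
      have h4 := congrArg (mapC ((D.ρ (D.gj (D.act g j)) : N ≃ₐ[k] N) : N →ₐ[k] N) α β) (hfixZ _ hst)
      rw [mapC_mul, mul_inv_cancel_left] at h4
      exact h4
    · have hj' : ¬ D.Cj (D.act g j) := fun h => hj (hCj' j h)
      rw [if_neg hj, if_neg hj', map_zero]
  obtain ⟨R₀, hR₀⟩ := desc_point hΔ {σ | ∃ g, D.act g 0 = 0 ∧ σ = D.ρ g} (D.e 0)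
    (fun z hz => D.fixF z fun g hg => hz _ ⟨g, hg, rfl⟩) R (by
      rintro σ ⟨g, hg, rfl⟩
      exact hRfix g hg)
  apply vp_of_const
  intro u hu
  obtain ⟨u6, hu6, h6⟩ := exists_u6 D hu
  obtain ⟨ψ, C1, hψH, h7⟩ := hZ6 u6 hu6
  obtain ⟨S, hS⟩ := D.sum_const hrat hu
  obtain ⟨S', hS'⟩ := D.main hrat hu
  obtain ⟨C2, hC2⟩ := reg_const hΔ hq R₀ hψH
  have hodd : ∀ w : RPl k N, u6 (w.comap D.e6) + u6 ((w.comap ((D.ρ D.gι : N ≃ₐ[k] N) : N →ₐ[k] N)).comap D.e6) = S := by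
    intro w
    rw [h6, h6, D.comap_e, D.comap_e, ← hS w, Fin.sum_univ_four]
    rcases D.hgι with ⟨h0, h1⟩ | ⟨h0, h1⟩
    · rw [h0, h1]
      ring
    · rw [h0, h1]
      ring
  have hι : ∀ w : RPl k N, (w.comap D.e6).comap ((ι : F6 ≃ₐ[k] F6) : F6 →ₐ[k] F6) =
      (w.comap ((D.ρ D.gι : N ≃ₐ[k] N) : N →ₐ[k] N)).comap D.e6 := by
    intro w
    have e1 : D.e6.comp ((ι : F6 ≃ₐ[k] F6) : F6 →ₐ[k] F6) =
        ((D.ρ D.gι : N ≃ₐ[k] N) : N →ₐ[k] N).comp D.e6 := by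
      ext z
      exact (D.hι z).symm
    rw [RPl.comap_comap, RPl.comap_comap, e1]
  -- the function on pairs
  obtain ⟨κ, hκ⟩ : ∃ κ : k, κ = (Fintype.card G' : k) * ((A.np : k) + A.nm) := ⟨_, rfl⟩
  have hκ0 : κ ≠ 0 := by
    rw [hκ]
    refine mul_ne_zero (Nat.cast_ne_zero.mpr Fintype.card_ne_zero) ?_
    rw [← Nat.cast_add]
    exact Nat.cast_ne_zero.mpr (Nat.pos_iff_ne_zero.mp A.hnp)
  have hpair : ∀ w : RPl k N, κ * u6 (w.comap D.e6) = ψ (redH hΔ w Z01) + C1 + (Fintype.card G' : k) * A.nm * S := by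
    intro w
    have h8 := h7 (w.comap D.e6)
    rw [hι w] at h8
    have h9 := hodd w
    rw [hZ01, redH_map, hκ]
    linear_combination h8 + (Fintype.card G' : k) * A.nm * h9
  have hone : ∀ w : RPl k N, 4 * κ * u (w.comap (D.e 0)) = 2 * ψ (redH hΔ w R) +
      ((∑ j : Fin 4, if D.Cj j then 2 * (C1 + (Fintype.card G' : k) * A.nm * S) - κ * S else 0) + κ * S') := by
    intro w
    have h8 := congrArg (κ * ·) (hS' w)
    beta_reduce at h8
    rw [mul_add, Finset.mul_sum] at h8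
    have h9 : ∀ j : Fin 4, κ * (if D.Cj j then
        ((u ((w.comap ((D.ρ (D.gj j) : N ≃ₐ[k] N) : N →ₐ[k] N)).comap (D.e 0)) +
          u ((w.comap ((D.ρ (D.gj j) : N ≃ₐ[k] N) : N →ₐ[k] N)).comap (D.e 1))) -
        (u (((w.comap ((D.ρ (D.gj j) : N ≃ₐ[k] N) : N →ₐ[k] N)).comap
            ((D.ρ D.gι : N ≃ₐ[k] N) : N →ₐ[k] N)).comap (D.e 0)) +
          u (((w.comap ((D.ρ (D.gj j) : N ≃ₐ[k] N) : N →ₐ[k] N)).comap
            ((D.ρ D.gι : N ≃ₐ[k] N) : N →ₐ[k] N)).comap (D.e 1)))) else 0) =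
        2 * ψ (redH hΔ w (if D.Cj j then
          mapC ((D.ρ (D.gj j) : N ≃ₐ[k] N) : N →ₐ[k] N) α β Z01 else 0)) +
        (if D.Cj j then 2 * (C1 + (Fintype.card G' : k) * A.nm * S) - κ * S else 0) := by
      intro j
      by_cases hj : D.Cj j
      · simp only [if_pos hj]
        rw [← h6, ← h6, redH_map]
        have h10 := hpair (w.comap ((D.ρ (D.gj j) : N ≃ₐ[k] N) : N →ₐ[k] N))
        have h11 := hodd (w.comap ((D.ρ (D.gj j) : N ≃ₐ[k] N) : N →ₐ[k] N))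
        linear_combination 2 * h10 - κ * h11
      · simp only [if_neg hj]
        rw [map_zero, map_zero]
        ring
    rw [Finset.sum_congr rfl fun j _ => h9 j, Finset.sum_add_distrib, ← Finset.mul_sum, ← map_sum, ← map_sum,
      ← hR] at h8
    linear_combination h8
  refine ⟨(4 * κ)⁻¹ * (2 * C2 + ((∑ j : Fin 4, if D.Cj j then 2 * (C1 + (Fintype.card G' : k) * A.nm * S) - κ * S else 0) +
    κ * S')), fun v => ?_⟩
  obtain ⟨w, rfl⟩ := exists_lift (D.e 0) v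
  have h8 := hone w
  rw [← hR₀, redH_map, hC2] at h8
  rw [← h8]
  field_simp

theorem dsc_aux {A B : k[X]} (h : A ^ 3 + B ^ 2 ≠ 0) :
    4 * (27 * X ^ 2 * A) ^ 3 + 27 * (54 * X ^ 3 * B) ^ 2 ≠ 0 := by
  intro h1
  have h2 : (78732 : k[X]) * (X ^ 6 * (A ^ 3 + B ^ 2)) = 0 := by linear_combination h1
  rcases mul_eq_zero.mp h2 with h3 | h3
  · have h4 : (C (78732 : k) : k[X]) = 0 := by
      rw [map_ofNat]
      exact h3
    rw [C_eq_zero] at h4
    norm_num at h4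
  · exact h ((mul_eq_zero.mp h3).resolve_left (pow_ne_zero 6 X_ne_zero))

theorem dsc_aux' {c : Fin 10 → k[X]} (h : Dsc c ≠ 0) :
    4 * (27 * X ^ 2 * PS c) ^ 3 + 27 * (54 * X ^ 3 * PT c) ^ 2 ≠ 0 := by
  unfold Dsc at h
  generalize PS c = A at h ⊢
  generalize PT c = B at h ⊢
  exact dsc_aux h

/-- The product case for families of plane cubics. -/
theorem stepT_of (D : QD k F N F6 G) {Ω : Type u} [Field Ω] [Algebra k Ω] {G' Γ : Type u} [Group G']
    [Fintype G'] [Group Γ] [Fintype Γ] (A : A1 D.cd Ω G' Γ)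
    (hrat : ∀ u : RPl k (IntermediateField.adjoin k {D.s, D.t}) → k, HF k _ u → ∀ w w', u w = u w')
    (hq : Reg k F) (α β : k) (U : k[X]) (hU : U ≠ 0) (hα : PS D.cd.c = X ^ 2 * (C α * U ^ 4))
    (hβ : PT D.cd.c = X ^ 3 * (C β * U ^ 6)) : VP k F 0 := by
  refine stepT_G D.toG A.toG hrat hq (27 * α) (54 * β) (X * U) (mul_ne_zero X_ne_zero hU) ?_ ?_
    (dsc_aux' D.cd.dsc)
  · rw [hα, map_mul, map_ofNat]
    ring
  · rw [hβ, map_mul, map_ofNat]
    ring

end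

end Pool.Agent.Helper70.KX
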